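import Pool.Agent.TLO.Lo7
import Pool.Agent.Helper42.LT.Fin0
import Pool.Agent.Helper42.LT.Fin1

set_option autoImplicit false

/-!
# TLO-Lo8: the localisation sequence over algebraically closed fields, and degree one
-/

noncomputable section

open Polynomial TensorProduct
open scoped Classical

namespace TLO

open Helper14.Gon Helper14.W4 Helper14.Loc QPL TGF

universe u

section
variable {F L : Type u} [Field F] [Field L]

/-- a field homomorphism with a left inverse induces injective maps -/
lemma hm_inj_of (k j : ℕ) (φ : F →+* L) (ψ : L →+* F) (h : ψ.comp φ = RingHom.id F) :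
    Function.Injective (hm k j φ) := by
  have h1 : ∀ z : CC k j F, rs k j ψ (rs k j φ z) = z := by
    intro z
    have h2 : (rs k j ψ) ∘ₗ (rs k j φ) = LinearMap.id := by
      refine CC_ext fun x v => ?_
      rw [LinearMap.comp_apply, rs_gn, rs_gn, LinearMap.id_apply]
      congr 1
      · cases x with
        | none => rfl
        | some x => exact congrArg some (RingHom.congr_fun h x)
      · funext i
        refine congrArg Additive.ofMul (Units.ext ?_)
        exact RingHom.congr_fun h _
    exact LinearMap.congr_fun h2 z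
  have h3 : ∀ c : HC F k j, hm k j ψ (hm k j φ c) = c := by
    intro c
    obtain ⟨z, rfl⟩ := hc_surj c
    obtain ⟨h4, h5⟩ := hm_ind k j φ z
    obtain ⟨h6, h7⟩ := hm_ind k j ψ ⟨_, h4⟩
    rw [h5, h7, hc_eq]
    change rs k j ψ (rs k j φ z.1) - z.1 ∈ _
    rw [h1, sub_self]
    exact zero_mem _
  intro a b hab
  rw [← h3 a, ← h3 b, hab]

end

section
variable {K : Type u} [Field K]

/-- the rational points -/
def pa (a : K) : Pt K := ⟨Polynomial.X - C a, monic_X_sub_C a, irreducible_X_sub_C a⟩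

private lemma lo8_psi (a : K) : ∃ ψ : kap (pa a) →+* K,
    ψ.comp ((rP (pa a)).comp C) = RingHom.id K := by
  have h0 : (Polynomial.X - C a : K[X]).eval₂ (RingHom.id K) a = 0 := by
    rw [Polynomial.eval₂_sub, Polynomial.eval₂_X, Polynomial.eval₂_C, RingHom.id_apply, sub_self]
  refine ⟨AdjoinRoot.lift (RingHom.id K) a h0, RingHom.ext fun x => ?_⟩
  refine (AdjoinRoot.lift_mk (f := (Polynomial.X - C a : K[X])) h0 (C x)).trans ?_
  rw [Polynomial.eval₂_C]

private lemma lo8_X (a : K) : (RatFunc.X - RatFunc.C a : RatFunc K) =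
    algebraMap K[X] (RatFunc K) (Polynomial.X - C a) := by
  rw [map_sub, RatFunc.algebraMap_X, RatFunc.algebraMap_C]

lemma rsd_ts_self (k j : ℕ) (a : K) (z : CC k j K) :
    rsd (vP (pa a)) k j (Helper14.Loc.ts K k j a z) = rs k j ((rP (pa a)).comp C) z := by
  have h : (rsd (vP (pa a)) k j) ∘ₗ (Helper14.Loc.ts K k j a) = rs k j ((rP (pa a)).comp C) := by
    refine CC_ext fun x v => ?_
    rw [LinearMap.comp_apply, Helper14.Loc.ts, us_gn, rs_gn, lo8_X]
    exact (isRes_rsd (pa a) k j _ _ (val_C (pa a) x)).1 _ _ (fun i => uval_C (pa a) (v i))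
  exact LinearMap.congr_fun h z

lemma rsd_ts_ne (k j : ℕ) (a b : K) (hab : b ≠ a) (z : CC k j K) :
    rsd (vP (pa a)) k j (Helper14.Loc.ts K k j b z) = 0 := by
  have h : (rsd (vP (pa a)) k j) ∘ₗ (Helper14.Loc.ts K k j b) = 0 := by
    refine CC_ext fun x v => ?_
    rw [LinearMap.comp_apply, Helper14.Loc.ts, us_gn, LinearMap.zero_apply, lo8_X]
    have h1 : ¬ (pa a).1 ∣ (Polynomial.X - C b : K[X]) := by
      intro h
      have h2 : (Polynomial.X - C b : K[X]).IsRoot a := Polynomial.dvd_iff_isRoot.1 h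
      rw [Polynomial.IsRoot, Polynomial.eval_sub, Polynomial.eval_X, Polynomial.eval_C,
        sub_eq_zero] at h2
      exact hab h2.symm
    have h3 : ¬ (pa a).1 ∣ (1 : K[X]) := fun h => (pa a).2.2.not_isUnit (isUnit_of_dvd_one h)
    refine (isRes_rsd (pa a) k j _ _ (val_C (pa a) x)).2 _
      (Fin.cons (lgm (rP (pa a) (Polynomial.X - C b) / rP (pa a) 1)) fun i => mu ((rP (pa a)).comp C) (v i))
      (fun i => ?_)
    refine Fin.cases ?_ (fun i => ?_) i
    · refine ⟨Polynomial.X - C b, 1, h1, h3, ?_, rfl⟩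
      rw [map_one, div_one]
      rfl
    · exact uval_C (pa a) (v i)
  exact LinearMap.congr_fun h z

/-- exactness in the middle from the isomorphism -/
theorem exact_mid (k j : ℕ) (h : LocMid K k j) :
    Function.Exact (hm k (j + 1) (RatFunc.C : K →+* RatFunc K)) (Rs K k j) := by
  obtain ⟨e, h1, h2⟩ := h
  have key : ∀ c, e (inM c) = hm k (j + 1) (RatFunc.C : K →+* RatFunc K) c := by
    intro c
    obtain ⟨z, rfl⟩ := hc_surj c
    obtain ⟨h3, h4⟩ := hm_ind k (j + 1) (RatFunc.C : K →+* RatFunc K) z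
    obtain ⟨h5, h6⟩ := h1 z
    rw [h4]
    exact h6
  have key2 : ∀ (a b : K) (y : HC K k j), Rs K k j (e (inR b y)) (pa a) =
      if b = a then hm k j ((rP (pa a)).comp C) y else 0 := by
    intro a b y
    obtain ⟨z, rfl⟩ := hc_surj y
    obtain ⟨h5, h6⟩ := h2 b z
    have h7 : e (inR b (hc z)) = hc ⟨Helper14.Loc.ts K k j b z.1, h5⟩ := h6
    rw [h7, Rs_hc]
    by_cases hab : b = a
    · subst hab
      rw [if_pos rfl]
      obtain ⟨h8, h9⟩ := hm_ind k j ((rP (pa b)).comp C) z
      rw [h9, hc_eq]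
      change rsd (vP (pa b)) k j (Helper14.Loc.ts K k j b z.1) - rs k j ((rP (pa b)).comp C) z.1 ∈ _
      rw [rsd_ts_self, sub_self]
      exact zero_mem _
    · rw [if_neg hab, hc_zero]
      change rsd (vP (pa a)) k j (Helper14.Loc.ts K k j b z.1) ∈ _
      rw [rsd_ts_ne k j a b hab]
      exact zero_mem _
  intro c
  constructor
  · intro hc0
    obtain ⟨⟨x, f⟩, rfl⟩ := e.surjective c
    have hsum' : ((x, f) : HC K k (j + 1) × (K →₀ HC K k j)) =
        (x, 0) + ∑ b ∈ f.support, ((0, Finsupp.single b (f b)) :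
          HC K k (j + 1) × (K →₀ HC K k j)) := by
      refine Prod.ext ?_ ?_
      · rw [Prod.fst_add, Prod.fst_sum, Finset.sum_const_zero, add_zero]
      · rw [Prod.snd_add, Prod.snd_sum, zero_add]
        exact (Finsupp.sum_single f).symm
    have hsum : ((x, f) : SM K k j) = inM x + ∑ b ∈ f.support, inR b (f b) := hsum'
    have hf : f = 0 := by
      ext a
      have h3 : Rs K k j (e (x, f)) (pa a) = hm k j ((rP (pa a)).comp C) (f a) := by
        rw [hsum, map_add, map_sum, map_add, map_sum, key, Rs_hm, zero_add]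
        change (DirectSum.component ℚ (Pt K) (fun P => HC (kap P) k j) (pa a))
          (∑ b ∈ f.support, Rs K k j (e (inR b (f b)))) = _
        rw [map_sum]
        have h4 : ∀ b ∈ f.support, (DirectSum.component ℚ (Pt K) (fun P => HC (kap P) k j) (pa a))
            (Rs K k j (e (inR b (f b)))) =
            if b = a then hm k j ((rP (pa a)).comp C) (f b) else 0 := fun b _ => key2 a b (f b)
        rw [Finset.sum_congr rfl h4, Finset.sum_ite_eq']
        by_cases ha : a ∈ f.support
        · rw [if_pos ha]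
        · rw [if_neg ha, Finsupp.notMem_support_iff.1 ha, map_zero]
      rw [hc0] at h3
      obtain ⟨ψ, hψ⟩ := lo8_psi a
      refine hm_inj_of k j _ ψ hψ ?_
      rw [← h3, Finsupp.zero_apply, map_zero]
      rfl
    subst hf
    exact ⟨x, (key x).symm⟩
  · rintro ⟨d, rfl⟩
    exact Rs_hm k j d

/-- degree one -/
theorem bij_one (k : ℕ) (h : LocOne K k) :
    Function.Bijective (hm k 0 (RatFunc.C : K →+* RatFunc K)) := by
  obtain ⟨e, h1⟩ := h
  have key : ∀ c, hm k 0 (RatFunc.C : K →+* RatFunc K) c = e c := by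
    intro c
    obtain ⟨z, rfl⟩ := hc_surj c
    obtain ⟨h3, h4⟩ := hm_ind k 0 (RatFunc.C : K →+* RatFunc K) z
    obtain ⟨h5, h6⟩ := h1 z
    rw [h4]
    exact h6.symm
  have h2 : (hm k 0 (RatFunc.C : K →+* RatFunc K) : HC K k 0 → HC (RatFunc K) k 0) = e :=
    funext key
  rw [h2]
  exact e.bijective

end

end TLO
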