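import Pool.Agent.TLO.Main
import Pool.Agent.TGF.Fin

set_option autoImplicit false

/-!
# TLO-T2: vanishing for `F(t)`, `F` algebraic over `F_p(u)`
-/

noncomputable section

open Polynomial TensorProduct
open scoped Classical

namespace TLO

open Helper14.Gon Helper14.W4 Helper14.Loc QPL TGF

universe u

section
variable {K : Type u} [Field K]

/-- vanishing from the localisation sequence -/
lemma sub_of_seq (k j : ℕ) (h : LocSeq K k j) (h1 : Subsingleton (HC K k (j + 1)))
    (h2 : ∀ P : Pt K, Subsingleton (HC (kap P) k j)) :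
    Subsingleton (HC (RatFunc K) k (j + 1)) := by
  have key : ∀ c : HC (RatFunc K) k (j + 1), c = 0 := by
    intro c
    have h3 : Rs K k j c = 0 := by
      refine DirectSum.ext_component ℚ fun P => ?_
      haveI := h2 P
      exact Subsingleton.elim _ _
    obtain ⟨x, hx⟩ := (h.2.1 c).1 h3
    rw [← hx, Subsingleton.elim x 0, map_zero]
  exact ⟨fun a b => by rw [key a, key b]⟩

lemma sub_of_seqT (n : ℕ) (h : LocSeqT K n) (h1 : Subsingleton (HT K (n + 1)))
    (h2 : ∀ P : Pt K, Subsingleton (HT (kap P) n)) :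
    Subsingleton (HT (RatFunc K) (n + 1)) := by
  have key : ∀ c : HT (RatFunc K) (n + 1), c = 0 := by
    intro c
    have h3 : RsT K n c = 0 := by
      refine DirectSum.ext_component ℚ fun P => ?_
      haveI := h2 P
      exact Subsingleton.elim _ _
    obtain ⟨x, hx⟩ := (h.2.1 c).1 h3
    rw [← hx, Subsingleton.elim x 0, map_zero]
  exact ⟨fun a b => by rw [key a, key b]⟩

lemma sub_of_bij (k : ℕ) (h : Function.Bijective (hm k 0 (RatFunc.C : K →+* RatFunc K)))
    (h1 : Subsingleton (HC K k 0)) : Subsingleton (HC (RatFunc K) k 0) :=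
  h.surjective.subsingleton

/-- the residue fields are algebraic over `K` -/
private lemma t2_alg (P : Pt K) : ∃ i : Algebra K (kap P),
    (algebraMap K (kap P) = (rP P).comp C) ∧ Algebra.IsAlgebraic K (kap P) := by
  haveI : Module.Finite K (AdjoinRoot P.1) := P.2.1.finite_adjoinRoot
  refine ⟨(inferInstance : Algebra K (AdjoinRoot P.1)), rfl, ?_⟩
  exact (Algebra.IsAlgebraic.of_finite K (AdjoinRoot P.1))

end

section
variable (p : ℕ) [Fact p.Prime] (F : Type u) [Field F] [Algebra (RatFunc (ZMod p)) F]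
  [Algebra.IsAlgebraic (RatFunc (ZMod p)) F]

private lemma t2_res (P : Pt F) : ∃ _ : Algebra (RatFunc (ZMod p)) (kap P),
    Algebra.IsAlgebraic (RatFunc (ZMod p)) (kap P) := by
  obtain ⟨i, hi, ha⟩ := t2_alg P
  letI := i
  letI : Algebra (RatFunc (ZMod p)) (kap P) :=
    ((algebraMap F (kap P)).comp (algebraMap (RatFunc (ZMod p)) F)).toAlgebra
  haveI : IsScalarTower (RatFunc (ZMod p)) F (kap P) := IsScalarTower.of_algebraMap_eq' rfl
  haveI := ha
  exact ⟨inferInstance, Algebra.IsAlgebraic.trans (RatFunc (ZMod p)) F (kap P)⟩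

include p

/-- `H^{n-1}(Γ(F(t), n) ⊗ ℚ) = 0` for `n ≥ 2` -/
theorem t2_0 (j : ℕ) : Subsingleton (HC (RatFunc F) 0 j) := by
  have hv : ∀ i, Subsingleton (HC F 0 i) := fun i => van0 p F L1 (recP _ L1) exact1 i
  cases j with
  | zero => exact sub_of_bij 0 (bij_one 0 (locOne 0)) (hv 0)
  | succ j =>
    refine sub_of_seq 0 j (seq0 F j) (hv (j + 1)) fun P => ?_
    obtain ⟨i, hi⟩ := t2_res p F P
    letI := i
    haveI := hi
    exact van0 p (kap P) L1 (recP _ L1) exact1 j

/-- `H^n(Γ(F(t), n) ⊗ ℚ) = 0` for `n ≥ 3` -/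
theorem t2_T (n : ℕ) (hn : 3 ≤ n) : Subsingleton (HT (RatFunc F) n) := by
  obtain ⟨m, rfl⟩ : ∃ m, n = m + 1 := ⟨n - 1, by omega⟩
  refine sub_of_seqT m (seqT F m) (vanT p F L0 (recP _ L0) exact0 (m + 1) (by omega)) fun P => ?_
  obtain ⟨i, hi⟩ := t2_res p F P
  letI := i
  haveI := hi
  exact vanT p (kap P) L0 (recP _ L0) exact0 m (by omega)

/-- `H^{n-2}(Γ(F(t), n) ⊗ ℚ) = 0` for `n ≥ 3`, `F` algebraically closed -/
theorem t2_1 [IsAlgClosed F] (j : ℕ) : Subsingleton (HC (RatFunc F) 1 j) := by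
  have hv : ∀ i, Subsingleton (HC F 1 i) := fun i => van1 p F L2 (recP _ L2) i
  cases j with
  | zero => exact sub_of_bij 1 (bij_one 1 (locOne 1)) (hv 0)
  | succ j =>
    refine sub_of_seq 1 j (seq1 F j) (hv (j + 1)) fun P => ?_
    obtain ⟨i, hi, ha⟩ := t2_alg P
    letI := i
    haveI := ha
    have hb : Function.Bijective (algebraMap F (kap P)) :=
      IsAlgClosed.algebraMap_bijective_of_isIntegral
    haveI : IsAlgClosed (kap P) :=
      IsAlgClosed.of_ringEquiv F (kap P) (RingEquiv.ofBijective (algebraMap F (kap P)) hb)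
    obtain ⟨i', hi'⟩ := t2_res p F P
    letI := i'
    haveI := hi'
    exact van1 p (kap P) L2 (recP _ L2) j

end

end TLO
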