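import Pool.Agent.TLO.Lo5

set_option autoImplicit false

/-!
# TLO-Lres: the localisation sequence (definitions)
-/

noncomputable section

open Polynomial TensorProduct
open scoped Classical

namespace TLO

open Helper14.Gon Helper14.W4 Helper14.Loc TGF

universe u

section
variable (K : Type u) [Field K]

/-- There is a linear map whose component at every closed point `P` is induced by the residue at
`P`, a map between the complexes which is determined by its values on the generators. -/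
theorem exists_Rs (k j : ℕ) :
    ∃ e : HC (RatFunc K) k (j + 1) →ₗ[ℚ] RS K k j, ∀ P : Pt K,
      ∃ R : CC k (j + 1) (RatFunc K) →ₗ[ℚ] CC k j (kap P),
        IsRes P k j R ∧ (∀ R', IsRes P k j R' → R' = R) ∧ Ind R (fun c => e c P) := ex_Rs K k j

/-- The same in the top degree. -/
theorem exists_RsT (n : ℕ) :
    ∃ e : HT (RatFunc K) (n + 1) →ₗ[ℚ] RST K n, ∀ P : Pt K,
      ∃ R : TT (n + 1) (RatFunc K) →ₗ[ℚ] TT n (kap P),
        IsResT P n R ∧ (∀ R', IsResT P n R' → R' = R) ∧ IndT R (fun c => e c P) := ex_RsT K n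

/-- The residue map `H^i(Γ(K(t), n) ⊗ ℚ) → ⨁_P H^{i-1}(Γ(κ_P, n - 1) ⊗ ℚ)`, `n = k + j + 3`,
`i = j + 2` (a degree below the top degree). -/
def Rs (k j : ℕ) : HC (RatFunc K) k (j + 1) →ₗ[ℚ] RS K k j := (exists_Rs K k j).choose

/-- The residue map `H^{n+1}(Γ(K(t), n + 1) ⊗ ℚ) → ⨁_P H^n(Γ(κ_P, n) ⊗ ℚ)` (top degree). -/
def RsT (n : ℕ) : HT (RatFunc K) (n + 1) →ₗ[ℚ] RST K n := (exists_RsT K n).choose

/-- The sequence
`0 → H^i(Γ(K, n) ⊗ ℚ) → H^i(Γ(K(t), n) ⊗ ℚ) → ⨁_P H^{i-1}(Γ(κ_P, n - 1) ⊗ ℚ) → 0` is exact, for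
`n = k + j + 3`, `i = j + 2` (a degree below the top degree). -/
def LocSeq (k j : ℕ) : Prop :=
  Function.Injective (hm k (j + 1) (RatFunc.C : K →+* RatFunc K)) ∧
  Function.Exact (hm k (j + 1) (RatFunc.C : K →+* RatFunc K)) (Rs K k j) ∧
  Function.Surjective (Rs K k j)

/-- The sequence
`0 → H^m(Γ(K, m) ⊗ ℚ) → H^m(Γ(K(t), m) ⊗ ℚ) → ⨁_P H^{m-1}(Γ(κ_P, m - 1) ⊗ ℚ) → 0` is exact, for
`m = n + 1` (top degree). -/
def LocSeqT (n : ℕ) : Prop :=
  Function.Injective (hmt (n + 1) (RatFunc.C : K →+* RatFunc K)) ∧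
  Function.Exact (hmt (n + 1) (RatFunc.C : K →+* RatFunc K)) (RsT K n) ∧
  Function.Surjective (RsT K n)

end

/-- The map `K(t) → F(t)` induced by a map `K → F`. -/
def rmK {K F : Type u} [Field K] [Field F] (φ : K →+* F) : RatFunc K →+* RatFunc F :=
  RatFunc.mapRingHom (mapRingHom φ)
    (nonZeroDivisors_le_comap_nonZeroDivisors_of_injective _ (map_injective φ φ.injective))

/-- `F` is a field extension of `K`, `n = j + 4`. A class in `H^{n-2}(Γ(K(t), n) ⊗ ℚ)` without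
residues is the sum of the image of a class in `H^{n-2}(Γ(K, n) ⊗ ℚ)` and of a class which vanishes
in `H^{n-2}(Γ(F(t), n) ⊗ ℚ)`. -/
def GeoExact (K F : Type u) [Field K] [Field F] [Algebra K F] (j : ℕ) : Prop :=
  ∀ c : HC (RatFunc K) 1 (j + 1), Rs K 1 j c = 0 → ∃ x : HC K 1 (j + 1),
    hm 1 (j + 1) (rmK (algebraMap K F)) (c - hm 1 (j + 1) (RatFunc.C : K →+* RatFunc K) x) = 0

end TLO
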