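import Pool.Agent.TLO.Lo8

set_option autoImplicit false

/-!
# TLO-Main: localisation for all fields
-/

noncomputable section

open Polynomial TensorProduct
open scoped Classical

namespace TLO

open Helper14.Gon Helper14.W4 Helper14.Loc QPL TGF

universe u

/-- the localisation sequence in codegree two over an algebraically closed field -/
theorem seq1 (K : Type u) [Field K] [IsAlgClosed K] (j : ℕ) : LocSeq K 1 j :=
  ⟨hm_inj 1 j, exact_mid 1 j (locMid_of 1 j (Helper42.LT.surj_one j)), surj1 K j⟩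

theorem localisation :
    (∀ (K : Type u) [Field K],
      (∀ k : ℕ, Function.Bijective (hm k 0 (RatFunc.C : K →+* RatFunc K))) ∧
      (∀ k j : ℕ, Function.Injective (hm k (j + 1) (RatFunc.C : K →+* RatFunc K)) ∧
        ∀ c, Rs K k j (hm k (j + 1) (RatFunc.C : K →+* RatFunc K) c) = 0) ∧
      (∀ j : ℕ, LocSeq K 0 j) ∧ (∀ n : ℕ, LocSeqT K n) ∧
      (∀ j : ℕ, Function.Surjective (Rs K 1 j))) ∧
    (∀ (K : Type u) [Field K] [IsAlgClosed K] (j : ℕ), LocSeq K 1 j) :=
  ⟨fun K _ => ⟨fun k => bij_one k (locOne k), fun k j => ⟨hm_inj k j, Rs_hm k j⟩,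
    fun j => seq0 K j, fun n => seqT K n, fun j => surj1 K j⟩, fun K _ _ j => seq1 K j⟩

end TLO
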