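import Pool.Agent.TLO.T2
import Pool.Agent.Helper14.Gon.Final

set_option autoImplicit false

/-!
# TLO-FF2: `H^1` of rational function fields in one and two variables over algebraic extensions of `F_p`
-/

noncomputable section

open Polynomial TensorProduct
open scoped Classical

namespace TLO

open Helper14.Gon Helper14.W4 Helper14.Loc QPL TGF

universe u

private lemma ff2_sub {F : Type u} [Field F] (i : ℕ) (h : ZZ i F = ⊥) : Subsingleton (HC F i 0) := by
  have h0 : ZC F i 0 = ⊥ := by
    cases i with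
    | zero => exact h
    | succ i => exact h
  have h1 : Subsingleton (ZC F i 0) := by
    rw [h0]
    infer_instance
  exact (Submodule.Quotient.mk_surjective ((BC F i 0).submoduleOf (ZC F i 0))).subsingleton

/-- `H^1(Γ(k(s), n) ⊗ ℚ) = 0` for `n ≥ 2`, `k` algebraic over `F_p` -/
theorem ff2_one (p : ℕ) [Fact p.Prime] (k : Type u) [Field k] [Algebra (ZMod p) k]
    [Algebra.IsAlgebraic (ZMod p) k] (i : ℕ) : Subsingleton (HC (RatFunc k) i 0) := by
  haveI : CharP k p := charP_of_injective_algebraMap (algebraMap (ZMod p) k).injective p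
  refine ff2_sub i (ratFunc_deg1 (Fact.out : p.Prime) (exists_pow_eq p Fact.out fun x => ?_) i)
  obtain ⟨P, hP, h⟩ := Algebra.IsAlgebraic.isAlgebraic (R := ZMod p) x
  refine ⟨P, hP, ?_⟩
  have e : ZMod.castHom (dvd_refl p) k = algebraMap (ZMod p) k := Subsingleton.elim _ _
  rw [e]
  exact h

/-- `H^1(Γ(k(s, t), n) ⊗ ℚ) = 0` for `n ≥ 2`, `k` algebraic over `F_p` -/
theorem ff2_two (p : ℕ) [Fact p.Prime] (k : Type u) [Field k] [Algebra (ZMod p) k]
    [Algebra.IsAlgebraic (ZMod p) k] (i : ℕ) : Subsingleton (HC (RatFunc (RatFunc k)) i 0) :=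
  sub_of_bij i (bij_one i (locOne i)) (ff2_one p k i)

end TLO
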