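import Pool.Agent.TLO.Main
import Pool.Agent.TGF.Fin
import Pool.Agent.QPL.TrA
import Pool.Agent.QPL.TrD
import Pool.Agent.QPL.TrE
import Pool.Agent.QPL.At

set_option autoImplicit false

/-!
# TLO-Lo9: classes in codegree two without residues
-/

noncomputable section

open Polynomial TensorProduct
open scoped Classical

namespace TLO

open Helper14.Gon Helper14.W4 Helper14.Loc QPL TGF

universe u

section
variable {F L M : Type u} [Field F] [Field L] [Field M]

lemma rs_comp (k j : ℕ) (φ : F →+* L) (ψ : L →+* M) (z : CC k j F) :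
    rs k j (ψ.comp φ) z = rs k j ψ (rs k j φ z) := by
  have h : rs k j (ψ.comp φ) = (rs k j ψ) ∘ₗ (rs k j φ) := by
    refine CC_ext fun x v => ?_
    rw [LinearMap.comp_apply, rs_gn, rs_gn, rs_gn]
    congr 1
    · cases x <;> rfl
  exact LinearMap.congr_fun h z

lemma hm_comp (k j : ℕ) (φ : F →+* L) (ψ : L →+* M) (c : HC F k j) :
    hm k j (ψ.comp φ) c = hm k j ψ (hm k j φ c) := by
  obtain ⟨z, rfl⟩ := hc_surj c
  obtain ⟨h1, h2⟩ := hm_ind k j φ z
  obtain ⟨h3, h4⟩ := hm_ind k j ψ ⟨_, h1⟩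
  obtain ⟨h5, h6⟩ := hm_ind k j (ψ.comp φ) z
  rw [h2, h4, h6, hc_eq]
  change rs k j (ψ.comp φ) z.1 - rs k j ψ (rs k j φ z.1) ∈ _
  rw [rs_comp, sub_self]
  exact zero_mem _

end

section
variable {K F : Type u} [Field K] [Field F]

lemma rm_am (ι : K →+* F) (A : K[X]) :
    rm ι (algebraMap K[X] (RatFunc K) A) = algebraMap F[X] (RatFunc F) (A.map ι) := by
  have h1 := RatFunc.map_apply_div (mapRingHom ι) (by
    intro P hP
    rw [Submonoid.mem_comap, mem_nonZeroDivisors_iff_ne_zero]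
    rw [mem_nonZeroDivisors_iff_ne_zero] at hP
    intro h
    exact hP (map_injective ι ι.injective (by rw [Polynomial.map_zero]; exact h))) A 1
  rw [map_one, map_one, map_one, div_one, div_one] at h1
  exact h1

lemma rm_C (ι : K →+* F) : (rm ι).comp RatFunc.C = (RatFunc.C : F →+* RatFunc F).comp ι := by
  refine RingHom.ext fun x => ?_
  change rm ι (RatFunc.C x) = RatFunc.C (ι x)
  rw [← RatFunc.algebraMap_C, ← RatFunc.algebraMap_C, rm_am, Polynomial.map_C]

lemma rm_comp {L : Type u} [Field L] (ι : K →+* F) (σ : F →+* L) :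
    (rm σ).comp (rm ι) = rm (σ.comp ι) := by
  have hp : ∀ A : K[X], (rm σ).comp (rm ι) (algebraMap K[X] (RatFunc K) A) =
      rm (σ.comp ι) (algebraMap K[X] (RatFunc K) A) := by
    intro A
    rw [RingHom.comp_apply, rm_am, rm_am, rm_am, Polynomial.map_map]
  refine RingHom.ext fun x => ?_
  have hx : algebraMap K[X] (RatFunc K) x.num / algebraMap K[X] (RatFunc K) x.denom = x :=
    RatFunc.num_div_denom x
  rw [← hx, map_div₀, map_div₀, hp, hp]

/-- the valuation at a point, in terms of the closed point `t - a` -/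
private lemma lo9_at {a : F} {W : AC (RatFunc F) F} (hW : IsAt a W) :
    IsPt (plP (pa a)) (W.push ((rP (pa a)).comp C)) := by
  have hX0 : (Polynomial.X - C a : F[X]) ≠ 0 := X_sub_C_ne_zero a
  have hr1 : (Polynomial.X - C a : F[X]).rootMultiplicity a = 1 :=
    rootMultiplicity_X_sub_C_self
  have hroot : ∀ A : F[X], ¬ (pa a).1 ∣ A → A.rootMultiplicity a = 0 := by
    intro A hA
    refine rootMultiplicity_eq_zero fun h => hA ?_
    exact dvd_iff_isRoot.2 h
  have hne : ∀ A : F[X], ¬ (pa a).1 ∣ A → A ≠ 0 := by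
    rintro A hA rfl
    exact hA (dvd_zero _)
  have hev : ∀ A : F[X], (rP (pa a)).comp C (A.eval a) = rP (pa a) A := by
    intro A
    have h1 : (pa a).1 ∣ A - C (A.eval a) := by
      refine dvd_iff_isRoot.2 ?_
      rw [IsRoot.def, eval_sub, eval_C, sub_self]
    have h2 : rP (pa a) (A - C (A.eval a)) = 0 := (rP_zero (pa a)).2 h1
    rw [map_sub, sub_eq_zero] at h2
    exact h2.symm
  refine ⟨?_, ?_, fun A hA => ?_, fun A hA => ?_⟩
  · change W.v (algebraMap F[X] (RatFunc F) (Polynomial.X - C a)) = 1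
    rw [hW.v _ hX0, hr1, Nat.cast_one]
  · change (rP (pa a)).comp C (W.lc (algebraMap F[X] (RatFunc F) (Polynomial.X - C a))) = 1
    rw [hW.lc _ hX0, hr1, pow_one]
    have h1 : ((Polynomial.X - C a) /ₘ (Polynomial.X - C a) : F[X]) = 1 := by
      have h2 := mul_divByMonic_cancel_left (1 : F[X]) (monic_X_sub_C a)
      rwa [mul_one] at h2
    rw [h1, eval_one, map_one]
  · change W.v (algebraMap F[X] (RatFunc F) A) = 0
    rw [hW.v _ (hne A hA), hroot A hA, Nat.cast_zero]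
  · change (rP (pa a)).comp C (W.lc (algebraMap F[X] (RatFunc F) A)) = rP (pa a) A
    rw [hW.lc _ (hne A hA), hroot A hA, pow_zero, divByMonic_one]
    exact hev A

/-- residues after extension of the constants to an algebraic closure -/
theorem null_rm (H : Thy.{u}) (hH : Laws H) [IsAlgClosed F] (ι : K →+* F)
    (halg : ∀ x : F, ∃ P : K[X], P ≠ 0 ∧ P.eval₂ ι x = 0) (j : ℕ)
    (z : H.Y (RatFunc K) (j + 1)) (h : ∀ P : Pt K, H.re (vP P) j z ∈ H.N (kap P) j)
    (P : Pt F) : H.re (vP P) j (H.map (rm ι) (j + 1) z) ∈ H.N (kap P) j := by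
  -- the point is rational
  obtain ⟨a, ha⟩ : ∃ a : F, P = pa a := by
    obtain ⟨P, hm, hi⟩ := P
    have h1 : P.degree = 1 := IsAlgClosed.degree_eq_one_of_irreducible F hi
    obtain ⟨a, ha⟩ := IsAlgClosed.exists_root P (by rw [h1]; exact one_ne_zero)
    refine ⟨a, Subtype.ext ?_⟩
    have h2 : (Polynomial.X - C a) ∣ P := dvd_iff_isRoot.2 ha
    have h3 : Associated (Polynomial.X - C a) P :=
      (irreducible_X_sub_C a).associated_of_dvd hi h2
    exact (eq_of_monic_of_associated (monic_X_sub_C a) hm h3).symm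
  subst ha
  obtain ⟨W, hW⟩ := exists_at a
  have hp := lo9_at hW
  have h1 : H.re (vP (pa a)) j (H.map (rm ι) (j + 1) z) =
      H.re (W.push ((rP (pa a)).comp C)) j (H.map (rm ι) (j + 1) z) := by
    have h2 := hH.re_unif (RatFunc F) (kap (pa a)) (W.push ((rP (pa a)).comp C)) (vP (pa a)) 1
      (fun x hx => by rw [one_mul]; exact (pt_unique (vP_pt (pa a)) hp x hx).1)
      (fun x hx _ => (pt_unique (vP_pt (pa a)) hp x hx).2) j (H.map (rm ι) (j + 1) z)
    rw [h2, one_smul]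
  rw [h1, hH.re_push]
  refine hH.map_N _ _ _ j _ ?_
  obtain ⟨P0, hP0, hP0a⟩ := halg a
  obtain ⟨Q, hQm, hQi, hQa⟩ := exists_pl ι a P0 hP0 hP0a
  set q : Pt K := ⟨Q, hQm, hQi⟩ with hq
  obtain ⟨y, hy1, hy2⟩ := emb_exists (plP q) ι a hQa
  rw [re_alg H hH ι (plP q) (vP q) (vP_pt q) a W hW y hy1 hy2 j z]
  exact Submodule.smul_mem _ _ (hH.map_N _ _ y j _ (h q))

end

/-- Codegree two: a class without residues is constant up to a class which vanishes over
`F(t)`, `F` an algebraic closure of `K`. -/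
theorem geo (K F : Type u) [Field K] [Field F] [Algebra K F] [IsAlgClosure K F] (j : ℕ)
    (c : HC (RatFunc K) 1 (j + 1)) (h : Rs K 1 j c = 0) :
    ∃ x : HC K 1 (j + 1), hm 1 (j + 1) (rm (algebraMap K F))
      (c - hm 1 (j + 1) (RatFunc.C : K →+* RatFunc K) x) = 0 := by
  haveI : IsAlgClosed F := IsAlgClosure.isAlgClosed K
  have halg : ∀ x : F, ∃ P : K[X], P ≠ 0 ∧ P.eval₂ (algebraMap K F) x = 0 := by
    intro x
    haveI : Algebra.IsAlgebraic K F := IsAlgClosure.isAlgebraic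
    obtain ⟨P, hP, h⟩ := Algebra.IsAlgebraic.isAlgebraic (R := K) x
    exact ⟨P, hP, by rw [← Polynomial.aeval_def]; exact h⟩
  set ι : K →+* F := algebraMap K F with hι
  -- the image has no residues
  have h1 : Rs F 1 j (hm 1 (j + 1) (rm ι) c) = 0 := by
    refine DirectSum.ext_component ℚ fun P => ?_
    change Rs F 1 j _ P = 0
    obtain ⟨y, rfl⟩ := hc_surj c
    obtain ⟨z, hz⟩ := t2_surj (j + 1) y.1
    have h2 : ∀ Q : Pt K, th2.re (vP Q) j z ∈ th2.N (kap Q) j := by
      intro Q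
      have h3 : Rs K 1 j (hc y) Q = 0 := by rw [h]; rfl
      rw [Rs_hc, hc_zero] at h3
      change rsd (vP Q) 1 j y.1 ∈ _ at h3
      rw [← hz, rsd_t2] at h3
      exact (t2_B j _).1 h3
    obtain ⟨h4, h5⟩ := hm_ind 1 (j + 1) (rm ι) y
    rw [h5, Rs_hc, hc_zero]
    change rsd (vP P) 1 j (rs 1 (j + 1) (rm ι) y.1) ∈ _
    rw [← hz, t2_rs, rsd_t2]
    exact (t2_B j _).2 (null_rm th2 L2 ι halg j z h2 P)
  obtain ⟨d, hd⟩ := ((seq1 F j).2.1 _).1 h1
  -- the constant class is invariant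
  have h2 : ∀ σ : F ≃ₐ[K] F, hm 1 (j + 1) (σ : F →+* F) d = d := by
    intro σ
    refine (seq1 F j).1 ?_
    have h3 : (σ : F →+* F).comp ι = ι := RingHom.ext fun x => σ.commutes x
    rw [← hm_comp, ← rm_C, hm_comp, hd, ← hm_comp, rm_comp, h3]
  obtain ⟨x, hx⟩ := (desc1 K F L2 (trP _ L2) (j + 1) d).2 h2
  refine ⟨x, ?_⟩
  rw [map_sub, ← hm_comp, rm_C, hm_comp, hx, hd, sub_self]

end TLO
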