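import Pool.Agent.TGF.Fdef

set_option autoImplicit false

/-!
# TLO-Ldef: residues at the closed points of the affine line (definitions)
-/

noncomputable section

open Polynomial TensorProduct
open scoped Classical

namespace TLO

open Helper14.Gon Helper14.W4 Helper14.Loc TGF

universe u

section
variable {K : Type u} [Field K]

/-- The closed points of the affine line over `K`: the monic irreducible polynomials. -/
def Pt (K : Type u) [Field K] : Type u := {P : K[X] // P.Monic ∧ Irreducible P}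

/-- The residue field `κ_P = K[t]/(P)` of a closed point. -/
def kap (P : Pt K) : Type u := AdjoinRoot P.1

instance instKap (P : Pt K) : Field (kap P) :=
  haveI : Fact (Irreducible P.1) := ⟨P.2.2⟩
  (inferInstance : Field (AdjoinRoot P.1))

/-- The reduction `K[t] → κ_P`. -/
def rP (P : Pt K) : K[X] →+* kap P := AdjoinRoot.mk P.1

/-- The point `(a : b) = a / b` of `P¹(F)` (`none` is the point at infinity). -/
def pq {F : Type u} [Field F] (a b : F) : P1 F := if b = 0 then none else some (a / b)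

/-- The point `x` of `P¹(K(t))` has the value `ξ` in `P¹(κ_P)`. -/
def Val (P : Pt K) (x : P1 (RatFunc K)) (ξ : P1 (kap P)) : Prop :=
  ∃ A B : K[X], ¬ (P.1 ∣ A ∧ P.1 ∣ B) ∧
    x = pq (algebraMap K[X] (RatFunc K) A) (algebraMap K[X] (RatFunc K) B) ∧
    ξ = pq (rP P A) (rP P B)

/-- `u` is a unit at `P`, with the value `c` in `κ_P^*`. -/
def UVal (P : Pt K) (u : MU (RatFunc K)) (c : MU (kap P)) : Prop :=
  ∃ A B : K[X], ¬ P.1 ∣ A ∧ ¬ P.1 ∣ B ∧
    u = lgm (algebraMap K[X] (RatFunc K) A / algebraMap K[X] (RatFunc K) B) ∧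
    c = lgm (rP P A / rP P B)

/-- The uniformizer `P` at the point `P`. -/
def pi (P : Pt K) : MU (RatFunc K) := lgm (algebraMap K[X] (RatFunc K) P.1)

/-- `R` is the residue at `P`, all terms but the last one: it maps
`{x} ⊗ P ∧ u_1 ∧ … ∧ u_j` to `{x(P)} ⊗ u_1(P) ∧ … ∧ u_j(P)` and `{x} ⊗ u_0 ∧ … ∧ u_j` to `0`, if
the `u_i` are units at `P`. -/
def IsRes (P : Pt K) (k j : ℕ) (R : CC k (j + 1) (RatFunc K) →ₗ[ℚ] CC k j (kap P)) : Prop :=
  ∀ (x : P1 (RatFunc K)) (ξ : P1 (kap P)), Val P x ξ →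
    (∀ (u : Fin j → MU (RatFunc K)) (c : Fin j → MU (kap P)), (∀ i, UVal P (u i) (c i)) →
      R (gn k x (Fin.cons (pi P) u)) = gn k ξ c) ∧
    (∀ (u : Fin (j + 1) → MU (RatFunc K)) (c : Fin (j + 1) → MU (kap P)),
      (∀ i, UVal P (u i) (c i)) → R (gn k x u) = 0)

/-- `R` is the residue at `P`, last term: it maps `P ∧ u_1 ∧ … ∧ u_n` to `u_1(P) ∧ … ∧ u_n(P)`
and `u_0 ∧ … ∧ u_n` to `0`, if the `u_i` are units at `P`. -/
def IsResT (P : Pt K) (n : ℕ) (R : TT (n + 1) (RatFunc K) →ₗ[ℚ] TT n (kap P)) : Prop :=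
  (∀ (u : Fin n → MU (RatFunc K)) (c : Fin n → MU (kap P)), (∀ i, UVal P (u i) (c i)) →
    R (tp (Fin.cons (pi P) u)) = tp c) ∧
  (∀ (u : Fin (n + 1) → MU (RatFunc K)) (c : Fin (n + 1) → MU (kap P)),
    (∀ i, UVal P (u i) (c i)) → R (tp u) = 0)

end

section
variable (K : Type u) [Field K]

/-- The group `⨁_P H^{i-1}(Γ(κ_P, n - 1) ⊗ ℚ)`, `n = k + j + 3`, `i = j + 2`. -/
abbrev RS (k j : ℕ) : Type u := DirectSum (Pt K) fun P => HC (kap P) k j

/-- The group `⨁_P H^n(Γ(κ_P, n) ⊗ ℚ)`. -/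
abbrev RST (n : ℕ) : Type u := DirectSum (Pt K) fun P => HT (kap P) n

end

end TLO
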