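import Pool.Agent.TGF.Ts
import Pool.Agent.TGF.Pt
import Pool.Agent.QPL.Th

set_option autoImplicit false

/-!
# TLO-Lo1: only finitely many closed points have a residue
-/

noncomputable section

open Polynomial TensorProduct
open scoped Classical

namespace TLO

open Helper14.Gon Helper14.W4 QPL TGF

universe u

/-- A cochain has nonzero residues only at finitely many closed points. -/
def FinR (H : Thy.{u}) : Prop :=
  ∀ (K : Type u) [Field K] (j : ℕ) (z : H.Y (RatFunc K) (j + 1)), ∃ s : Finset K[X],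
    ∀ (k : Type u) [Field k] (p : SRG.Pl K k) (V : AC (RatFunc K) k), IsPt p V → p.P ∉ s →
      H.re V j z = 0

section
variable {K : Type u} [Field K]

/-- the monic prime divisors of a polynomial -/
private def lo1_s (A : K[X]) : Finset K[X] :=
  (UniqueFactorizationMonoid.normalizedFactors A).toFinset

private lemma lo1_mem {k : Type u} [Field k] (p : SRG.Pl K k) {A : K[X]} (hA : A ≠ 0)
    (h : p.P ∉ lo1_s A) : ¬ p.P ∣ A := by
  intro hd
  refine h ?_
  rw [lo1_s, Multiset.mem_toFinset, UniqueFactorizationMonoid.mem_normalizedFactors_iff' hA]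
  exact ⟨p.irr, p.monic.normalize_eq_self, hd⟩

/-- the units have value zero outside a finite set -/
private lemma lo1_v (v : Additive (RatFunc K)ˣ) : ∃ s : Finset K[X],
    ∀ (k : Type u) [Field k] (p : SRG.Pl K k) (V : AC (RatFunc K) k), IsPt p V → p.P ∉ s →
      V.vH v = 0 := by
  set f : RatFunc K := ((v.toMul : (RatFunc K)ˣ) : RatFunc K) with hf
  have hf0 : f ≠ 0 := Units.ne_zero _
  have hn : f.num ≠ 0 := RatFunc.num_ne_zero hf0
  have hd : f.denom ≠ 0 := f.denom_ne_zero
  refine ⟨lo1_s f.num ∪ lo1_s f.denom, fun k _ p V hV hs => ?_⟩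
  rw [Finset.mem_union, not_or] at hs
  have h1 := hV.v f.num (lo1_mem p hn hs.1)
  have h2 := hV.v f.denom (lo1_mem p hd hs.2)
  change V.v f = 0
  have h3 : f = algebraMap K[X] (RatFunc K) f.num / algebraMap K[X] (RatFunc K) f.denom :=
    (RatFunc.num_div_denom f).symm
  rw [h3, V.v_div (RatFunc.algebraMap_ne_zero hn) (RatFunc.algebraMap_ne_zero hd), h1, h2,
    sub_zero]

private lemma lo1_T (j : ℕ) (ω : Tx (j + 1) (RatFunc K)) : ∃ s : Finset K[X],
    ∀ (k : Type u) [Field k] (p : SRG.Pl K k) (V : AC (RatFunc K) k), IsPt p V → p.P ∉ s →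
      reT V j ω = 0 := by
  obtain ⟨t, ht⟩ := exists_TS (j + 1) ω
  choose s hs using fun v : Additive (RatFunc K)ˣ => lo1_v v
  refine ⟨t.biUnion s, fun k _ p V hV hp => ?_⟩
  have h1 : ω ∈ TS (j + 1) V.vH.ker := ht _ fun v hv => by
    rw [AddMonoidHom.mem_ker]
    refine hs v k p V hV fun h => hp ?_
    exact Finset.mem_biUnion.2 ⟨v, hv, h⟩
  have h2 : ctT j V.vH ω = 0 := ctT_TS j (fun v hv => hv) h1
  rw [reT, LinearMap.comp_apply, h2, map_zero]

private lemma lo1_X (j : ℕ) (z : X (j + 1) (RatFunc K)) : ∃ s : Finset K[X],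
    ∀ (k : Type u) [Field k] (p : SRG.Pl K k) (V : AC (RatFunc K) k), IsPt p V → p.P ∉ s →
      reX V j z = 0 := by
  refine x_ind (fun z : X (j + 1) (RatFunc K) => ∃ s : Finset K[X],
    ∀ (k : Type u) [Field k] (p : SRG.Pl K k) (V : AC (RatFunc K) k), IsPt p V → p.P ∉ s →
      reX V j z = 0) ?_ ?_ ?_ z
  · exact ⟨∅, fun k _ p V _ _ => map_zero _⟩
  · rintro a b ⟨s, hs⟩ ⟨t, ht⟩
    refine ⟨s ∪ t, fun k _ p V hV hp => ?_⟩
    rw [Finset.mem_union, not_or] at hp
    rw [map_add, hs k p V hV hp.1, ht k p V hV hp.2, add_zero]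
  · intro x ω
    obtain ⟨s, hs⟩ := lo1_T j ω
    refine ⟨s, fun k _ p V hV hp => ?_⟩
    rw [reX_bx, hs k p V hV hp, bx_zero, ite_self]

end

theorem fin2 : FinR th2.{u} := fun _ _ j z => lo1_X j z

theorem fin1 : FinR th1.{u} := fun _ _ j z => lo1_X j z

theorem fin0 : FinR th0.{u} := fun _ _ j z => lo1_T j z

end TLO
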