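import Pool.Agent.TLO.Lo1
import Pool.Agent.TLO.Ldef

set_option autoImplicit false

/-!
# TLO-Lo2: cocycles with given residues at all closed points
-/

noncomputable section

open Polynomial TensorProduct
open scoped Classical

namespace TLO

open Helper14.Gon Helper14.W4 QPL TGF

universe u

section
variable {K : Type u} [Field K]

/-- The closed point with its reduction map. -/
def plP (P : Pt K) : SRG.Pl K (kap P) where
  P := P.1
  monic := P.2.1
  irr := P.2.2
  r := rP P
  surj := AdjoinRoot.mk_surjective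
  ker := fun _ => AdjoinRoot.mk_eq_zero

/-- The valuation of the closed point, with uniformizer `P`. -/
def vP (P : Pt K) : AC (RatFunc K) (kap P) := (exists_pt (plP P)).choose

lemma vP_pt (P : Pt K) : IsPt (plP P) (vP P) := (exists_pt (plP P)).choose_spec

end

/-- Cocycles with given residues. -/
theorem multi (H : Thy.{u}) (hZ : ∀ (L k : Type u) [Field L] [Field k] (V : AC L k) (j : ℕ)
    (z : H.Y L (j + 1)), z ∈ H.Z L (j + 1) → H.re V j z ∈ H.Z k j) (hR : Resid H) (hF : FinR H)
    (K : Type u) [Field K] (j : ℕ) (w : (P : Pt K) → H.Y (kap P) j)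
    (hw : ∀ P, w P ∈ H.Z (kap P) j) (s : Finset (Pt K)) (hs : ∀ P, P ∉ s → w P ∈ H.N (kap P) j) :
    ∃ z ∈ H.Z (RatFunc K) (j + 1), ∀ P, H.re (vP P) j z - w P ∈ H.N (kap P) j := by
  suffices h : ∀ (d : ℕ) (w : (P : Pt K) → H.Y (kap P) j), (∀ P, w P ∈ H.Z (kap P) j) →
      ∀ s : Finset (Pt K), (∀ P, P ∉ s → w P ∈ H.N (kap P) j) →
      (∀ P : Pt K, d ≤ P.1.natDegree → w P ∈ H.N (kap P) j) →
      ∃ z ∈ H.Z (RatFunc K) (j + 1), ∀ P, H.re (vP P) j z - w P ∈ H.N (kap P) j by
    refine h ((s.sup fun P => P.1.natDegree) + 1) w hw s hs fun P hP => ?_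
    refine hs P fun hPs => ?_
    have h1 := Finset.le_sup (f := fun P : Pt K => P.1.natDegree) hPs
    exact absurd (h1.trans_lt (Nat.lt_succ_self _)) (not_lt.2 hP)
  intro d
  induction d with
  | zero =>
    intro w _ s _ hd
    refine ⟨0, Submodule.zero_mem _, fun P => ?_⟩
    rw [map_zero, zero_sub]
    exact neg_mem (hd P (Nat.zero_le _))
  | succ d ih =>
    intro w hw s hs hd
    -- cocycles with residue `w P` at `P`
    have hex : ∀ P : Pt K, ∃ z : H.Y (RatFunc K) (j + 1), z ∈ H.Z (RatFunc K) (j + 1) ∧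
        H.re (vP P) j z - w P ∈ H.N (kap P) j ∧
        ∀ Q : Pt K, Q ≠ P → P.1.natDegree ≤ Q.1.natDegree → H.re (vP Q) j z = 0 := by
      intro P
      obtain ⟨z, h1, h2, h3⟩ := hR K (kap P) (plP P) (vP P) (vP_pt P) j (w P) (hw P)
      exact ⟨z, h1, h2, fun Q hQ hdeg => h3 (kap Q) (plP Q) (vP Q) (vP_pt Q)
        (fun h => hQ (Subtype.ext h)) hdeg⟩
    choose z hz hzP hzQ using hex
    set S : Finset (Pt K) := s.filter fun P => P.1.natDegree = d with hS
    set z1 : H.Y (RatFunc K) (j + 1) := ∑ P ∈ S, z P with hz1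
    have hz1Z : z1 ∈ H.Z (RatFunc K) (j + 1) := Submodule.sum_mem _ fun P _ => hz P
    obtain ⟨t, ht⟩ := hF K j z1
    have hre : ∀ Q : Pt K, H.re (vP Q) j z1 = ∑ P ∈ S, H.re (vP Q) j (z P) := fun Q => by
      rw [hz1, map_sum]
    have hdeg : ∀ Q : Pt K, d ≤ Q.1.natDegree → w Q - H.re (vP Q) j z1 ∈ H.N (kap Q) j := by
      intro Q hQ
      by_cases hQS : Q ∈ S
      · have h1 : H.re (vP Q) j z1 = H.re (vP Q) j (z Q) := by
          rw [hre, Finset.sum_eq_single Q]
          · intro P hP hPQ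
            refine hzQ P Q (Ne.symm hPQ) ?_
            rw [(Finset.mem_filter.1 hP).2]
            exact hQ
          · intro h
            exact absurd hQS h
        rw [h1, ← neg_sub]
        exact neg_mem (hzP Q)
      · have h1 : H.re (vP Q) j z1 = 0 := by
          rw [hre]
          refine Finset.sum_eq_zero fun P hP => ?_
          refine hzQ P Q (fun h => hQS (h ▸ hP)) ?_
          rw [(Finset.mem_filter.1 hP).2]
          exact hQ
        rw [h1, sub_zero]
        by_cases hQd : Q.1.natDegree = d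
        · refine hs Q fun h => hQS ?_
          exact Finset.mem_filter.2 ⟨h, hQd⟩
        · exact hd Q (by omega)
    have hfin : Set.Finite {P : Pt K | P.1 ∈ t} :=
      Set.Finite.preimage (fun _ _ _ _ h => Subtype.ext h) t.finite_toSet
    obtain ⟨z2, hz2, hz2'⟩ := ih (fun Q => w Q - H.re (vP Q) j z1)
      (fun Q => Submodule.sub_mem _ (hw Q) (hZ _ _ (vP Q) j z1 hz1Z)) (s ∪ hfin.toFinset) (by
        intro Q hQ
        rw [Finset.mem_union, not_or, Set.Finite.mem_toFinset] at hQ
        have h1 : H.re (vP Q) j z1 = 0 := ht (kap Q) (plP Q) (vP Q) (vP_pt Q) hQ.2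
        change w Q - H.re (vP Q) j z1 ∈ _
        rw [h1, sub_zero]
        exact hs Q hQ.1) hdeg
    refine ⟨z1 + z2, Submodule.add_mem _ hz1Z hz2, fun P => ?_⟩
    have h1 := hz2' P
    have h2 : H.re (vP P) j (z1 + z2) - w P =
        H.re (vP P) j z2 - (w P - H.re (vP P) j z1) := by
      rw [map_add]
      abel
    rw [h2]
    exact h1

end TLO
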