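import Pool.Agent.TLO.Lo2
import Pool.Agent.TGF.Dict
import Pool.Agent.QPL.ReD
import Pool.Agent.QPL.ReN

set_option autoImplicit false

/-!
# TLO-Lo3: residues on cohomology
-/

noncomputable section

open Polynomial TensorProduct
open scoped Classical

namespace TLO

open Helper14.Gon Helper14.W4 Helper14.Loc QPL TGF

universe u

section
variable {L k : Type u} [Field L] [Field k]

/-- the residue, all terms but the last one -/
def rsd (V : AC L k) (m j : ℕ) : CC m (j + 1) L →ₗ[ℚ] CC m j k :=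
  (eC k m j).symm.toLinearMap ∘ₗ (reC m V j) ∘ₗ (eC L m (j + 1)).toLinearMap

/-- the residue, last term -/
def rsdT (V : AC L k) (n : ℕ) : TT (n + 1) L →ₗ[ℚ] TT n k :=
  (eT k n).symm.toLinearMap ∘ₗ (reT V n) ∘ₗ (eT L (n + 1)).toLinearMap

lemma rsd_eC (V : AC L k) (m j : ℕ) (z : CC m (j + 1) L) :
    eC k m j (rsd V m j z) = reC m V j (eC L m (j + 1) z) :=
  LinearEquiv.apply_symm_apply _ _

lemma rsdT_eT (V : AC L k) (n : ℕ) (z : TT (n + 1) L) :
    eT k n (rsdT V n z) = reT V n (eT L (n + 1) z) :=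
  LinearEquiv.apply_symm_apply _ _

lemma rsd_Z (V : AC L k) (m j : ℕ) {z : CC m (j + 1) L} (hz : z ∈ ZC L m (j + 1)) :
    rsd V m j z ∈ ZC k m j := by
  rw [mem_ZC] at hz ⊢
  rw [rsd_eC]
  cases m with
  | zero =>
    change dT j (reC 0 V j _) = 0
    have h : dT (j + 1) (eC L 0 (j + 1) z) = 0 := hz
    rw [← reT_dT, h, map_zero]
  | succ m =>
    change dC m j (reC (m + 1) V j _) = 0
    have h : dC m (j + 1) (eC L (m + 1) (j + 1) z) = 0 := hz
    have h2 := reC_dC V m j (eC L (m + 1) (j + 1) z)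
    rw [h, map_zero] at h2
    exact neg_eq_zero.1 h2.symm

lemma rsd_B (V : AC L k) (m j : ℕ) {z : CC m (j + 1) L} (hz : z ∈ BC L m (j + 1)) :
    rsd V m j z ∈ BC k m j := by
  rw [mem_BC] at hz ⊢
  rw [rsd_eC]
  obtain ⟨y, hy⟩ := hz
  rw [← hy]
  cases j with
  | zero =>
    change reC m V 0 (dC m 0 y) ∈ (⊥ : Submodule ℚ _)
    rw [reC_dC_zero]
    exact zero_mem _
  | succ j =>
    rw [reC_dC]
    exact neg_mem ⟨_, rfl⟩

lemma rsdT_B (V : AC L k) (n : ℕ) {z : TT (n + 1) L} (hz : z ∈ BT L (n + 1)) :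
    rsdT V n z ∈ BT k n := by
  have h1 : t0 (n + 1) (eT L (n + 1) z) = z := LinearEquiv.symm_apply_apply _ _
  have h2 : t0 n (reT V n (eT L (n + 1) z)) = rsdT V n z := rfl
  rw [← h1, t0_B] at hz
  rw [← h2, t0_B]
  exact reT_N0 V n _ hz

theorem exists_rh (V : AC L k) (m j : ℕ) : ∃ e : HC L m (j + 1) →ₗ[ℚ] HC k m j,
    Ind (rsd V m j) e := by
  refine ⟨((BC L m (j + 1)).submoduleOf (ZC L m (j + 1))).mapQ
    ((BC k m j).submoduleOf (ZC k m j))
    ((rsd V m j).restrict fun z hz => rsd_Z V m j hz) (fun z hz => rsd_B V m j hz),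
    fun z => ⟨rsd_Z V m j z.2, ?_⟩⟩
  rfl

theorem exists_rhT (V : AC L k) (n : ℕ) : ∃ e : HT L (n + 1) →ₗ[ℚ] HT k n,
    IndT (rsdT V n) e :=
  ⟨(BT L (n + 1)).mapQ (BT k n) (rsdT V n) (fun _ hz => rsdT_B V n hz), fun _ => rfl⟩

lemma rsd_t1 (V : AC L k) (j : ℕ) (z : X (j + 1) L) :
    rsd V 0 j (t1 (j + 1) z) = t1 j (reX V j z) := by
  refine (eC k 0 j).injective ?_
  rw [rsd_eC]
  exact (c2_reX V j z).symm

lemma rsd_t2 (V : AC L k) (j : ℕ) (z : X (j + 1) L) :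
    rsd V 1 j (t2 (j + 1) z) = t2 j (reX V j z) := by
  refine (eC k 1 j).injective ?_
  rw [rsd_eC]
  exact (c3_reX V j z).symm

lemma rsdT_t0 (V : AC L k) (n : ℕ) (z : Tx (n + 1) L) :
    rsdT V n (t0 (n + 1) z) = t0 n (reT V n z) := rfl

end

/-! ### values at a closed point -/

section
variable {K : Type u} [Field K] (P : Pt K)

private lemma lo3_ne {A : K[X]} (h : ¬ P.1 ∣ A) : A ≠ 0 := by
  rintro rfl
  exact h (dvd_zero _)

private lemma lo3_am {A : K[X]} (h : ¬ P.1 ∣ A) : algebraMap K[X] (RatFunc K) A ≠ 0 :=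
  RatFunc.algebraMap_ne_zero (lo3_ne P h)

lemma rP_zero {A : K[X]} : rP P A = 0 ↔ P.1 ∣ A := AdjoinRoot.mk_eq_zero

private lemma lo3_pos {A : K[X]} (h0 : A ≠ 0) (h : P.1 ∣ A) :
    0 < (vP P).v (algebraMap K[X] (RatFunc K) A) := by
  have h1 : FiniteMultiplicity P.1 A := FiniteMultiplicity.of_not_isUnit P.2.2.not_isUnit h0
  obtain ⟨c, hc, hc'⟩ := h1.exists_eq_pow_mul_and_not_dvd
  have h2 := (pt_pow (vP_pt P) (multiplicity P.1 A) (A := c) hc').1
  have h3 : (plP P).P ^ (multiplicity P.1 A) * c = A := hc.symm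
  rw [h3] at h2
  rw [h2]
  have h4 : multiplicity P.1 A ≠ 0 := by
    intro h5
    rw [h5, pow_zero, one_mul] at hc
    exact hc' (hc ▸ h)
  exact_mod_cast Nat.pos_of_ne_zero h4

/-- the value of a point -/
lemma rd_of_val {x : P1 (RatFunc K)} {ξ : P1 (kap P)} (h : Val P x ξ) : (vP P).rd x = ξ := by
  obtain ⟨A, B, hAB, rfl, rfl⟩ := h
  have hV := vP_pt P
  by_cases hB : B = 0
  · subst hB
    rw [pq, pq, map_zero, map_zero, if_pos rfl, if_pos rfl, AC.rd_none]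
  have hBr : algebraMap K[X] (RatFunc K) B ≠ 0 := RatFunc.algebraMap_ne_zero hB
  by_cases hA : A = 0
  · subst hA
    have hB' : ¬ P.1 ∣ B := fun h => hAB ⟨dvd_zero _, h⟩
    rw [pq, pq, if_neg hBr, if_neg (fun h => hB' ((rP_zero P).1 h)), map_zero, map_zero, zero_div,
      zero_div, AC.rd_zero]
  have hAr : algebraMap K[X] (RatFunc K) A ≠ 0 := RatFunc.algebraMap_ne_zero hA
  have hv := (vP P).v_div hAr hBr
  rw [pq, if_neg hBr]
  by_cases h1 : P.1 ∣ B
  · have h2 : ¬ P.1 ∣ A := fun h => hAB ⟨h, h1⟩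
    rw [pq, if_pos ((rP_zero P).2 h1)]
    refine AC.rd_neg _ (div_ne_zero hAr hBr) ?_
    rw [hv, hV.v A h2, zero_sub]
    exact neg_neg_of_pos (lo3_pos P hB h1)
  · rw [pq, if_neg (fun h => h1 ((rP_zero P).1 h))]
    by_cases h2 : P.1 ∣ A
    · rw [(rP_zero P).2 h2, zero_div]
      refine AC.rd_pos _ ?_
      rw [hv, hV.v B h1, sub_zero]
      exact lo3_pos P hA h2
    · rw [AC.rd_unit _ (div_ne_zero hAr hBr) (by rw [hv, hV.v A h2, hV.v B h1, sub_zero])]
      congr 1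
      rw [map_div₀, hV.lc A h2, hV.lc B h1]
      rfl

/-- the values of the units -/
lemma unit_of_uval {u : MU (RatFunc K)} {c : MU (kap P)} (h : UVal P u c) :
    (vP P).vH u = 0 ∧ (vP P).lH u = c := by
  obtain ⟨A, B, hA, hB, rfl, rfl⟩ := h
  have hV := vP_pt P
  have hA' := lo3_am P hA
  have hB' := lo3_am P hB
  have hne := div_ne_zero hA' hB'
  constructor
  · refine (QPL.vH_lg (vP P) hne).trans ?_
    rw [(vP P).v_div hA' hB', hV.v A hA, hV.v B hB, sub_zero]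
  · refine (QPL.lH_lg (vP P) hne).trans ?_
    rw [map_div₀, hV.lc A hA, hV.lc B hB]
    rfl

/-- every point has a value -/
lemma exists_val (x : P1 (RatFunc K)) : ∃ ξ, Val P x ξ := by
  have h1 : ¬ P.1 ∣ (1 : K[X]) := fun h => P.2.2.not_isUnit (isUnit_of_dvd_one h)
  cases x with
  | none =>
    refine ⟨pq (rP P 1) (rP P 0), 1, 0, fun h => h1 h.1, ?_, rfl⟩
    rw [map_zero, pq, if_pos rfl]
  | some x =>
    refine ⟨pq (rP P x.num) (rP P x.denom), x.num, x.denom, ?_, ?_, rfl⟩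
    · rintro ⟨h2, h3⟩
      exact P.2.2.not_isUnit ((RatFunc.isCoprime_num_denom x).isUnit_of_dvd' h2 h3)
    · rw [pq, if_neg (RatFunc.algebraMap_ne_zero x.denom_ne_zero), RatFunc.num_div_denom]

end

end TLO
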