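import Pool.Agent.TLO.Lo3

set_option autoImplicit false

/-!
# TLO-Lo4: the residue at a closed point, existence and uniqueness
-/

noncomputable section

open Polynomial TensorProduct
open scoped Classical

namespace TLO

open Helper14.Gon Helper14.W4 Helper14.Loc QPL TGF

universe u

section
variable {K : Type u} [Field K] (P : Pt K)

private lemma lo4_vpi : (vP P).vH (pi P) = 1 ∧ (vP P).lH (pi P) = 0 := by
  have h0 : algebraMap K[X] (RatFunc K) P.1 ≠ 0 := RatFunc.algebraMap_ne_zero P.2.2.ne_zero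
  constructor
  · exact (QPL.vH_lg (vP P) h0).trans (vP_pt P).vP
  · refine (QPL.lH_lg (vP P) h0).trans ?_
    have h1 : (vP P).lc (algebraMap K[X] (RatFunc K) P.1) = 1 := (vP_pt P).lP
    rw [h1]
    exact lg_one

/-- the residue of an exterior product of units -/
private lemma lo4_reT_units (n : ℕ) (u : Fin (n + 1) → MU (RatFunc K))
    (c : Fin (n + 1) → MU (kap P)) (h : ∀ i, UVal P (u i) (c i)) :
    reT (vP P) n (dm (F := RatFunc K) u) = 0 := by
  have h1 : (dm (F := RatFunc K) u : Tx (n + 1) (RatFunc K)) ∈ TS (n + 1) (vP P).vH.ker :=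
    dm_mem_TS fun i => (AddMonoidHom.mem_ker).2 (unit_of_uval P (h i)).1
  have h2 : ctT n (vP P).vH (dm (F := RatFunc K) u) = 0 := ctT_TS n (fun v hv => hv) h1
  rw [reT, LinearMap.comp_apply, h2, map_zero]

private lemma lo4_spT_units (n : ℕ) (u : Fin n → MU (RatFunc K))
    (c : Fin n → MU (kap P)) (h : ∀ i, UVal P (u i) (c i)) :
    TGF.spT (vP P) n (dm (F := RatFunc K) u) = dm (F := kap P) c := by
  rw [TGF.spT, tm_dm]
  congr 1
  funext i
  exact (unit_of_uval P (h i)).2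

/-- the residue of `P ∧ u_1 ∧ … ∧ u_n` -/
private lemma lo4_reT_pi (n : ℕ) (u : Fin n → MU (RatFunc K))
    (c : Fin n → MU (kap P)) (h : ∀ i, UVal P (u i) (c i)) :
    reT (vP P) n (dm (F := RatFunc K) (Fin.cons (pi P) u)) = dm (F := kap P) c := by
  have h1 : (dm (F := RatFunc K) (Fin.cons (pi P) u) : Tx (n + 1) (RatFunc K)) =
      wT n (pi P) (dm (F := RatFunc K) u) := (wT_dm (pi P) u).symm
  obtain ⟨h2, h3⟩ := lo4_vpi P
  rw [h1]
  cases n with
  | zero =>
    rw [QPL.reT_wT_zero, h2, one_smul]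
    exact lo4_spT_units P 0 u c h
  | succ n =>
    rw [QPL.reT_wT, h2, h3, one_smul, wT_zero, LinearMap.zero_apply, sub_zero]
    exact lo4_spT_units P (n + 1) u c h

private lemma lo4_gn (m j : ℕ) {F : Type u} [Field F] (x : P1 F) (v : Fin j → MU F) :
    eC F m j (gn m x v) = PB (m + 2) j (cl (m + 2) x) (dm (F := F) v) := by
  rw [eC_gn, dm, PB_gen]

private lemma lo4_tp (n : ℕ) {F : Type u} [Field F] (v : Fin n → MU F) :
    eT F n (tp v) = dm (F := F) v := rfl

theorem isRes_rsd (m j : ℕ) : IsRes P m j (rsd (vP P) m j) := by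
  intro x ξ hx
  have hr := rd_of_val P hx
  refine ⟨fun u c h => (eC (kap P) m j).injective ?_, fun u c h =>
    (eC (kap P) m j).injective ?_⟩
  · rw [rsd_eC, lo4_gn, lo4_gn, reC_PB, hr, lo4_reT_pi P j u c h]
  · rw [rsd_eC, lo4_gn, reC_PB, hr, lo4_reT_units P j u c h, map_zero, map_zero]

theorem isResT_rsdT (n : ℕ) : IsResT P n (rsdT (vP P) n) := by
  refine ⟨fun u c h => (eT (kap P) n).injective ?_, fun u c h =>
    (eT (kap P) n).injective ?_⟩
  · rw [rsdT_eT, lo4_tp, lo4_tp, lo4_reT_pi P n u c h]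
  · rw [rsdT_eT, lo4_tp, lo4_reT_units P n u c h, map_zero]

/-! ### uniqueness -/

private lemma lo4_decomp {A : K[X]} (hA : A ≠ 0) : ∃ (m : ℕ) (B : K[X]), ¬ P.1 ∣ B ∧
    A = P.1 ^ m * B := by
  have h1 : FiniteMultiplicity P.1 A := FiniteMultiplicity.of_not_isUnit P.2.2.not_isUnit hA
  obtain ⟨c, hc, hc'⟩ := h1.exists_eq_pow_mul_and_not_dvd
  exact ⟨_, c, hc', hc⟩

private lemma lo4_lg_pow {F : Type u} [Field F] {x : F} (hx : x ≠ 0) (m : ℕ) :
    (lg (x ^ m) : Additive Fˣ) = m • lg x := by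
  induction m with
  | zero => rw [pow_zero, lg_one, zero_smul]
  | succ m ih => rw [pow_succ, lg_mul (pow_ne_zero m hx) hx, ih, succ_nsmul]

/-- every element of `K(t)^*` is a power of `P` times a unit -/
private lemma lo4_units (v : MU (RatFunc K)) : ∃ (a : MU (RatFunc K)) (c : MU (kap P)) (n : ℤ),
    UVal P a c ∧ v = a + n • pi P := by
  set f : RatFunc K := ((Additive.toMul (v : Additive (RatFunc K)ˣ) : (RatFunc K)ˣ) : RatFunc K)
    with hf
  have hf0 : f ≠ 0 := Units.ne_zero _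
  have hv : (lg f : Additive (RatFunc K)ˣ) = v := lg_unit v
  obtain ⟨m, A, hA, hm⟩ := lo4_decomp P (RatFunc.num_ne_zero hf0)
  obtain ⟨n, B, hB, hn⟩ := lo4_decomp P f.denom_ne_zero
  have hA0 : algebraMap K[X] (RatFunc K) A ≠ 0 := RatFunc.algebraMap_ne_zero (by
    rintro rfl; exact hA (dvd_zero _))
  have hB0 : algebraMap K[X] (RatFunc K) B ≠ 0 := RatFunc.algebraMap_ne_zero (by
    rintro rfl; exact hB (dvd_zero _))
  have hP0 : algebraMap K[X] (RatFunc K) P.1 ≠ 0 := RatFunc.algebraMap_ne_zero P.2.2.ne_zero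
  have h1 : f = algebraMap K[X] (RatFunc K) f.num / algebraMap K[X] (RatFunc K) f.denom :=
    (RatFunc.num_div_denom f).symm
  have h2 : f * (algebraMap K[X] (RatFunc K) P.1 ^ n * algebraMap K[X] (RatFunc K) B) =
      algebraMap K[X] (RatFunc K) P.1 ^ m * algebraMap K[X] (RatFunc K) A := by
    have h3 : f * algebraMap K[X] (RatFunc K) f.denom = algebraMap K[X] (RatFunc K) f.num :=
      ((div_eq_iff (RatFunc.algebraMap_ne_zero f.denom_ne_zero)).1 h1.symm).symm
    rw [hm, hn, map_mul, map_mul, map_pow, map_pow] at h3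
    exact h3
  refine ⟨lgm (algebraMap K[X] (RatFunc K) A / algebraMap K[X] (RatFunc K) B),
    lgm (rP P A / rP P B), (m : ℤ) - n, ⟨A, B, hA, hB, rfl, rfl⟩, ?_⟩
  have e1 : (lg f : Additive (RatFunc K)ˣ) + (n • lg (algebraMap K[X] (RatFunc K) P.1) +
      lg (algebraMap K[X] (RatFunc K) B)) = m • lg (algebraMap K[X] (RatFunc K) P.1) +
      lg (algebraMap K[X] (RatFunc K) A) := by
    rw [← lo4_lg_pow hP0, ← lo4_lg_pow hP0, ← lg_mul (pow_ne_zero n hP0) hB0,
      ← lg_mul (pow_ne_zero m hP0) hA0, ← lg_mul hf0 (mul_ne_zero (pow_ne_zero n hP0) hB0), h2]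
  have e2 : (lg (algebraMap K[X] (RatFunc K) A / algebraMap K[X] (RatFunc K) B) :
      Additive (RatFunc K)ˣ) + lg (algebraMap K[X] (RatFunc K) B) =
      lg (algebraMap K[X] (RatFunc K) A) := by
    rw [← lg_mul (div_ne_zero hA0 hB0) hB0, div_mul_cancel₀ _ hB0]
  have e3 : (lg f : Additive (RatFunc K)ˣ) =
      lg (algebraMap K[X] (RatFunc K) A / algebraMap K[X] (RatFunc K) B) +
        ((m : ℤ) - n) • lg (algebraMap K[X] (RatFunc K) P.1) := by
    have e4 := e1
    rw [← e2] at e4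
    rw [sub_smul, natCast_zsmul, natCast_zsmul]
    have e5 : (lg f : Additive (RatFunc K)ˣ) +
        (n • lg (algebraMap K[X] (RatFunc K) P.1) + lg (algebraMap K[X] (RatFunc K) B)) =
        (lg (algebraMap K[X] (RatFunc K) A / algebraMap K[X] (RatFunc K) B) +
        (m • lg (algebraMap K[X] (RatFunc K) P.1) - n • lg (algebraMap K[X] (RatFunc K) P.1))) +
        (n • lg (algebraMap K[X] (RatFunc K) P.1) + lg (algebraMap K[X] (RatFunc K) B)) := by
      rw [e4]; abel
    exact add_right_cancel e5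
  exact hv.symm.trans e3

/-- the group of the units at `P` -/
private def lo4_G : AddSubgroup (Additive (RatFunc K)ˣ) := (vP P).vH.ker

private lemma lo4_G_uval {v : MU (RatFunc K)} (hv : v ∈ lo4_G P) : ∃ c, UVal P v c := by
  obtain ⟨a, c, n, h, e⟩ := lo4_units P v
  have h1 : (vP P).vH v = 0 := hv
  have h2 := (unit_of_uval P h).1
  have h3 := (lo4_vpi P).1
  have h4 : (vP P).vH v = (vP P).vH a + n • (vP P).vH (pi P) := by
    have h5 := congrArg (vP P).vH e
    rw [h5]
    exact ((vP P).vH.map_add _ _).trans (congrArg _ (map_zsmul (vP P).vH n _))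
  rw [h1, h2, h3, zero_add, zsmul_one] at h4
  have h5 : n = 0 := by exact_mod_cast h4.symm
  rw [h5, zero_smul, add_zero] at e
  exact ⟨c, e ▸ h⟩

/-- linear maps on `Λ^{n+1}` which vanish on `u_0 ∧ … ∧ u_n` and `P ∧ u_1 ∧ … ∧ u_n` vanish -/
private lemma lo4_zero (n : ℕ) {N : Type u} [AddCommGroup N] [Module ℚ N]
    (f : Tx (n + 1) (RatFunc K) →ₗ[ℚ] N)
    (h1 : ∀ (u : Fin n → MU (RatFunc K)) (c : Fin n → MU (kap P)), (∀ i, UVal P (u i) (c i)) →
      f (dm (F := RatFunc K) (Fin.cons (pi P) u)) = 0)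
    (h2 : ∀ (u : Fin (n + 1) → MU (RatFunc K)) (c : Fin (n + 1) → MU (kap P)),
      (∀ i, UVal P (u i) (c i)) → f (dm (F := RatFunc K) u) = 0) : f = 0 := by
  refine LinearMap.ext fun ω => ?_
  have hG : (⊤ : AddSubgroup (Additive (RatFunc K)ˣ)) ≤
      lo4_G P ⊔ AddSubgroup.zmultiples (pi P : Additive (RatFunc K)ˣ) := by
    intro v _
    obtain ⟨a, c, n, h, e⟩ := lo4_units P v
    rw [e]
    exact AddSubgroup.add_mem_sup (unit_of_uval P h).1 (AddSubgroup.mem_zmultiples_iff.2 ⟨n, rfl⟩)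
  obtain ⟨a, ha, b, hb, rfl⟩ := TS_ins n hG (TS_top (n + 1) ω)
  rw [map_add, LinearMap.zero_apply]
  have e1 : f a = 0 := by
    have hle : TS (n + 1) (lo4_G P) ≤ LinearMap.ker f := by
      rw [TS, Submodule.span_le]
      rintro _ ⟨v, hv, rfl⟩
      choose c hc using fun i => lo4_G_uval P (hv i)
      exact h2 v c hc
    exact hle ha
  have e2 : f (wT n (pi P) b) = 0 := by
    have hle : TS n (lo4_G P) ≤ LinearMap.ker (f ∘ₗ wT n (pi P)) := by
      rw [TS, Submodule.span_le]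
      rintro _ ⟨v, hv, rfl⟩
      choose c hc using fun i => lo4_G_uval P (hv i)
      change f (wT n (pi P) (dm v)) = 0
      rw [wT_dm]
      exact h1 v c hc
    exact hle hb
  rw [e1, e2, add_zero]

theorem isRes_unique (m j : ℕ) {R R' : CC m (j + 1) (RatFunc K) →ₗ[ℚ] CC m j (kap P)}
    (h : IsRes P m j R) (h' : IsRes P m j R') : R = R' := by
  rw [← sub_eq_zero]
  refine CC_ext fun x v => ?_
  obtain ⟨ξ, hξ⟩ := exists_val P x
  have key : ((R - R') ∘ₗ (eC (RatFunc K) m (j + 1)).symm.toLinearMap) ∘ₗ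
      PB (m + 2) (j + 1) (cl (m + 2) x) = 0 := by
    refine lo4_zero P j _ (fun u c hu => ?_) (fun u c hu => ?_)
    · have e : (eC (RatFunc K) m (j + 1)).symm (PB (m + 2) (j + 1) (cl (m + 2) x)
          (dm (F := RatFunc K) (Fin.cons (pi P) u))) = gn m x (Fin.cons (pi P) u) := by
        rw [LinearEquiv.symm_apply_eq, lo4_gn]
      change (R - R') _ = 0
      change (R - R') ((eC (RatFunc K) m (j + 1)).symm _) = 0
      rw [e, LinearMap.sub_apply, (h x ξ hξ).1 u c hu, (h' x ξ hξ).1 u c hu, sub_self]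
    · have e : (eC (RatFunc K) m (j + 1)).symm (PB (m + 2) (j + 1) (cl (m + 2) x)
          (dm (F := RatFunc K) u)) = gn m x u := by
        rw [LinearEquiv.symm_apply_eq, lo4_gn]
      change (R - R') ((eC (RatFunc K) m (j + 1)).symm _) = 0
      rw [e, LinearMap.sub_apply, (h x ξ hξ).2 u c hu, (h' x ξ hξ).2 u c hu, sub_self]
  have e : gn m x v = (eC (RatFunc K) m (j + 1)).symm (PB (m + 2) (j + 1) (cl (m + 2) x)
      (dm (F := RatFunc K) v)) := by
    rw [LinearEquiv.eq_symm_apply, lo4_gn]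
  rw [e]
  exact LinearMap.congr_fun key _

theorem isResT_unique (n : ℕ) {R R' : TT (n + 1) (RatFunc K) →ₗ[ℚ] TT n (kap P)}
    (h : IsResT P n R) (h' : IsResT P n R') : R = R' := by
  rw [← sub_eq_zero]
  have key : (R - R') ∘ₗ (eT (RatFunc K) (n + 1)).symm.toLinearMap = 0 := by
    refine lo4_zero P n _ (fun u c hu => ?_) (fun u c hu => ?_)
    · change (R - R') (tp (Fin.cons (pi P) u)) = 0
      rw [LinearMap.sub_apply, h.1 u c hu, h'.1 u c hu, sub_self]
    · change (R - R') (tp u) = 0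
      rw [LinearMap.sub_apply, h.2 u c hu, h'.2 u c hu, sub_self]
  refine LinearMap.ext fun z => ?_
  have h1 := LinearMap.congr_fun key (eT (RatFunc K) (n + 1) z)
  exact h1

end

end TLO
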