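import Pool.Agent.TLO.Lo4

set_option autoImplicit false

/-!
# TLO-Lo5: the total residue map
-/

noncomputable section

open Polynomial TensorProduct
open scoped Classical

namespace TLO

open Helper14.Gon Helper14.W4 Helper14.Loc QPL TGF

universe u

/-- maps to direct sums -/
private lemma lo5_dsum {ι : Type u} {M : ι → Type u} [∀ i, AddCommGroup (M i)]
    [∀ i, Module ℚ (M i)] {V : Type u} [AddCommGroup V] [Module ℚ V]
    (f : (i : ι) → V →ₗ[ℚ] M i) (h : ∀ v, ∃ s : Finset ι, ∀ i, i ∉ s → f i v = 0) :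
    ∃ e : V →ₗ[ℚ] DirectSum ι M, ∀ v i, e v i = f i v := by
  choose s hs using h
  have key : ∀ v i, (DirectSum.mk M (s v) (fun i => f i v)) i = f i v := by
    intro v i
    by_cases hi : i ∈ s v
    · exact DirectSum.mk_apply_of_mem hi
    · rw [hs v i hi]
      exact DirectSum.mk_apply_of_notMem hi
  refine ⟨{ toFun := fun v => DirectSum.mk M (s v) (fun i => f i v)
            map_add' := ?_
            map_smul' := ?_ }, key⟩
  · intro a b
    refine DirectSum.ext_component ℚ fun i => ?_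
    change (DirectSum.mk M (s (a + b)) (fun i => f i (a + b))) i =
      (DirectSum.mk M (s a) (fun i => f i a) + DirectSum.mk M (s b) (fun i => f i b)) i
    rw [key, DirectSum.add_apply, key, key, map_add]
  · intro q a
    refine DirectSum.ext_component ℚ fun i => ?_
    change (DirectSum.mk M (s (q • a)) (fun i => f i (q • a))) i =
      (q • DirectSum.mk M (s a) (fun i => f i a)) i
    rw [key, DirectSum.smul_apply, key, map_smul]

section
variable {K : Type u} [Field K]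

private lemma lo5_pts (s : Finset K[X]) : ∃ s' : Finset (Pt K), ∀ P, P ∉ s' → P.1 ∉ s := by
  have hfin : Set.Finite {P : Pt K | P.1 ∈ s} :=
    Set.Finite.preimage (fun _ _ _ _ h => Subtype.ext h) s.finite_toSet
  refine ⟨hfin.toFinset, fun P hP h => hP ?_⟩
  rw [Set.Finite.mem_toFinset]
  exact h

private lemma lo5_T (n : ℕ) (ω : Tx (n + 1) (RatFunc K)) : ∃ s : Finset (Pt K),
    ∀ P, P ∉ s → reT (vP P) n ω = 0 := by
  obtain ⟨s, hs⟩ := fin0 K n ω
  obtain ⟨s', hs'⟩ := lo5_pts s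
  exact ⟨s', fun P hP => hs (kap P) (plP P) (vP P) (vP_pt P) (hs' P hP)⟩

private lemma lo5_C (m j : ℕ) (y : Cx (m + 2) (j + 1) (RatFunc K)) : ∃ s : Finset (Pt K),
    ∀ P, P ∉ s → reC m (vP P) j y = 0 := by
  refine Cx_ind (fun y => ∃ s : Finset (Pt K), ∀ P, P ∉ s → reC m (vP P) j y = 0) ?_ ?_ ?_ y
  · exact ⟨∅, fun P _ => map_zero _⟩
  · rintro a b ⟨s, hs⟩ ⟨t, ht⟩
    refine ⟨s ∪ t, fun P hP => ?_⟩
    rw [Finset.mem_union, not_or] at hP
    rw [map_add, hs P hP.1, ht P hP.2, add_zero]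
  · intro x ω
    obtain ⟨s, hs⟩ := lo5_T j ω
    exact ⟨s, fun P hP => by rw [reC_PB, hs P hP, map_zero]⟩

/-- the residue on cohomology -/
def rh (P : Pt K) (m j : ℕ) : HC (RatFunc K) m (j + 1) →ₗ[ℚ] HC (kap P) m j :=
  (exists_rh (vP P) m j).choose

lemma rh_ind (P : Pt K) (m j : ℕ) : Ind (rsd (vP P) m j) (rh P m j) :=
  (exists_rh (vP P) m j).choose_spec

/-- the residue on cohomology, top degree -/
def rhT (P : Pt K) (n : ℕ) : HT (RatFunc K) (n + 1) →ₗ[ℚ] HT (kap P) n :=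
  (exists_rhT (vP P) n).choose

lemma rhT_ind (P : Pt K) (n : ℕ) : IndT (rsdT (vP P) n) (rhT P n) :=
  (exists_rhT (vP P) n).choose_spec

lemma hc_surj {F : Type u} [Field F] {k j : ℕ} (x : HC F k j) : ∃ z : ↥(ZC F k j), hc z = x :=
  Submodule.Quotient.mk_surjective _ x

lemma hc_eq {F : Type u} [Field F] {k j : ℕ} (z z' : ↥(ZC F k j)) :
    hc z = hc z' ↔ z.1 - z'.1 ∈ BC F k j :=
  Submodule.Quotient.eq ((BC F k j).submoduleOf (ZC F k j))

lemma hc_zero {F : Type u} [Field F] {k j : ℕ} (z : ↥(ZC F k j)) : hc z = 0 ↔ z.1 ∈ BC F k j :=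
  Submodule.Quotient.mk_eq_zero ((BC F k j).submoduleOf (ZC F k j))

lemma ht_surj {F : Type u} [Field F] {n : ℕ} (x : HT F n) : ∃ z : TT n F, ht z = x :=
  Submodule.Quotient.mk_surjective _ x

lemma ht_eq {F : Type u} [Field F] {n : ℕ} (z z' : TT n F) : ht z = ht z' ↔ z - z' ∈ BT F n :=
  Submodule.Quotient.eq (BT F n)

lemma ht_zero {F : Type u} [Field F] {n : ℕ} (z : TT n F) : ht z = 0 ↔ z ∈ BT F n :=
  Submodule.Quotient.mk_eq_zero (BT F n)

end

theorem ex_Rs (K : Type u) [Field K] (m j : ℕ) :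
    ∃ e : HC (RatFunc K) m (j + 1) →ₗ[ℚ] RS K m j, ∀ P : Pt K,
      ∃ R : CC m (j + 1) (RatFunc K) →ₗ[ℚ] CC m j (kap P),
        IsRes P m j R ∧ (∀ R', IsRes P m j R' → R' = R) ∧ Ind R (fun c => e c P) := by
  obtain ⟨e, he⟩ := lo5_dsum (fun P : Pt K => rh P m j) (by
    intro v
    obtain ⟨z, rfl⟩ := hc_surj v
    obtain ⟨s, hs⟩ := lo5_C m j (eC (RatFunc K) m (j + 1) z.1)
    refine ⟨s, fun P hP => ?_⟩
    obtain ⟨h, h2⟩ := rh_ind P m j z
    rw [h2, hc_zero]
    have h3 : rsd (vP P) m j z.1 = 0 := by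
      refine (eC (kap P) m j).injective ?_
      rw [rsd_eC, hs P hP, map_zero]
    change rsd (vP P) m j z.1 ∈ _
    rw [h3]
    exact zero_mem _)
  refine ⟨e, fun P => ⟨rsd (vP P) m j, isRes_rsd P m j,
    fun R' h => isRes_unique P m j h (isRes_rsd P m j), fun z => ?_⟩⟩
  obtain ⟨h, h2⟩ := rh_ind P m j z
  refine ⟨h, ?_⟩
  rw [← h2]
  exact he (hc z) P

theorem ex_RsT (K : Type u) [Field K] (n : ℕ) :
    ∃ e : HT (RatFunc K) (n + 1) →ₗ[ℚ] RST K n, ∀ P : Pt K,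
      ∃ R : TT (n + 1) (RatFunc K) →ₗ[ℚ] TT n (kap P),
        IsResT P n R ∧ (∀ R', IsResT P n R' → R' = R) ∧ IndT R (fun c => e c P) := by
  obtain ⟨e, he⟩ := lo5_dsum (fun P : Pt K => rhT P n) (by
    intro v
    obtain ⟨z, rfl⟩ := ht_surj v
    obtain ⟨s, hs⟩ := lo5_T n (eT (RatFunc K) (n + 1) z)
    refine ⟨s, fun P hP => ?_⟩
    rw [rhT_ind P n z, ht_zero]
    have h3 : rsdT (vP P) n z = 0 := by
      refine (eT (kap P) n).injective ?_
      rw [rsdT_eT, hs P hP, map_zero]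
    rw [h3]
    exact zero_mem _)
  refine ⟨e, fun P => ⟨rsdT (vP P) n, isResT_rsdT P n,
    fun R' h => isResT_unique P n h (isResT_rsdT P n), fun z => ?_⟩⟩
  rw [← rhT_ind P n z]
  exact he (ht z) P

end TLO
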