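import Pool.Agent.TLO.Lres
import Pool.Agent.Helper42.LT.Inj
import Pool.Agent.TGF.Res

set_option autoImplicit false

/-!
# TLO-Lo6: the localisation sequence, general facts
-/

noncomputable section

open Polynomial TensorProduct
open scoped Classical

namespace TLO

open Helper14.Gon Helper14.W4 Helper14.Loc QPL TGF

universe u

section
variable {K : Type u} [Field K]

/-- the residue of a class -/
lemma Rs_hc (P : Pt K) (m j : ℕ) (z : ↥(ZC (RatFunc K) m (j + 1))) :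
    Rs K m j (hc z) P = hc ⟨rsd (vP P) m j z.1, rsd_Z (vP P) m j z.2⟩ := by
  obtain ⟨R, h1, h2, h3⟩ := (exists_Rs K m j).choose_spec P
  have h4 : rsd (vP P) m j = R := h2 _ (isRes_rsd P m j)
  subst h4
  obtain ⟨h5, h6⟩ := h3 z
  exact h6

lemma RsT_ht (P : Pt K) (n : ℕ) (z : TT (n + 1) (RatFunc K)) :
    RsT K n (ht z) P = ht (rsdT (vP P) n z) := by
  obtain ⟨R, h1, h2, h3⟩ := (exists_RsT K n).choose_spec P
  have h4 : rsdT (vP P) n = R := h2 _ (isResT_rsdT P n)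
  subst h4
  exact h3 z

/-- constants are units, with constant values -/
lemma uval_C (P : Pt K) (v : MU K) :
    UVal P (mu (RatFunc.C : K →+* RatFunc K) v) (mu ((rP P).comp C) v) := by
  set a : K := ((Additive.toMul (v : Additive Kˣ) : Kˣ) : K) with ha
  have ha0 : a ≠ 0 := Units.ne_zero _
  have h1 : ¬ P.1 ∣ (1 : K[X]) := fun h => P.2.2.not_isUnit (isUnit_of_dvd_one h)
  have h2 : ¬ P.1 ∣ (C a : K[X]) := fun h => P.2.2.not_isUnit
    (isUnit_of_dvd_unit h (isUnit_C.2 (isUnit_iff_ne_zero.2 ha0)))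
  have h3 : ∀ (F : Type u) [Field F] (φ : K →+* F), mu φ v = lgm (φ a) := by
    intro F _ φ
    have h4 : φ a ≠ 0 := (map_ne_zero φ).2 ha0
    rw [lgm, dif_neg h4]
    change Additive.ofMul _ = Additive.ofMul _
    congr 1
    ext
    rfl
  refine ⟨C a, 1, h2, h1, ?_, ?_⟩
  · rw [map_one, div_one, h3 (RatFunc K) RatFunc.C]
    rfl
  · rw [map_one, div_one, h3 (kap P) ((rP P).comp C)]
    rfl

/-- constants have constant values -/
lemma val_C (P : Pt K) (x : P1 K) :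
    Val P (Option.map (RatFunc.C : K →+* RatFunc K) x) (Option.map ((rP P).comp C) x) := by
  have h1 : ¬ P.1 ∣ (1 : K[X]) := fun h => P.2.2.not_isUnit (isUnit_of_dvd_one h)
  cases x with
  | none =>
    refine ⟨1, 0, fun h => h1 h.1, ?_, ?_⟩
    · rw [map_zero, pq, if_pos rfl]; rfl
    · rw [map_zero, pq, if_pos rfl]; rfl
  | some a =>
    refine ⟨C a, 1, fun h => h1 h.2, ?_, ?_⟩
    · rw [map_one, pq, if_neg one_ne_zero, div_one]; rfl
    · rw [map_one, pq, if_neg one_ne_zero, div_one]; rfl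

lemma rsd_cs (P : Pt K) (m j : ℕ) (z : CC m (j + 1) K) :
    rsd (vP P) m j (rs m (j + 1) (RatFunc.C : K →+* RatFunc K) z) = 0 := by
  have h : (rsd (vP P) m j) ∘ₗ (rs m (j + 1) (RatFunc.C : K →+* RatFunc K)) = 0 := by
    refine CC_ext fun x v => ?_
    rw [LinearMap.comp_apply, rs_gn, LinearMap.zero_apply]
    exact (isRes_rsd P m j _ _ (val_C P x)).2 _ _ (fun i => uval_C P (v i))
  exact LinearMap.congr_fun h z

lemma rsdT_cst (P : Pt K) (n : ℕ) (z : TT (n + 1) K) :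
    rsdT (vP P) n (rt (n + 1) (RatFunc.C : K →+* RatFunc K) z) = 0 := by
  have h : (rsdT (vP P) n) ∘ₗ (rt (n + 1) (RatFunc.C : K →+* RatFunc K)) = 0 := by
    refine TT_ext fun v => ?_
    rw [LinearMap.comp_apply, rt_tp, LinearMap.zero_apply]
    exact (isResT_rsdT P n).2 _ _ (fun i => uval_C P (v i))
  exact LinearMap.congr_fun h z

/-- the residues of constants are zero -/
theorem Rs_hm (m j : ℕ) (c : HC K m (j + 1)) :
    Rs K m j (hm m (j + 1) (RatFunc.C : K →+* RatFunc K) c) = 0 := by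
  refine DirectSum.ext_component ℚ fun P => ?_
  change Rs K m j _ P = 0
  obtain ⟨z, rfl⟩ := hc_surj c
  obtain ⟨h, h2⟩ := hm_ind m (j + 1) (RatFunc.C : K →+* RatFunc K) z
  rw [h2, Rs_hc, hc_zero]
  change rsd (vP P) m j (rs m (j + 1) (RatFunc.C : K →+* RatFunc K) z.1) ∈ _
  rw [rsd_cs]
  exact zero_mem _

theorem RsT_hmt (n : ℕ) (c : HT K (n + 1)) :
    RsT K n (hmt (n + 1) (RatFunc.C : K →+* RatFunc K) c) = 0 := by
  refine DirectSum.ext_component ℚ fun P => ?_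
  change RsT K n _ P = 0
  obtain ⟨z, rfl⟩ := ht_surj c
  rw [hmt_ind (n + 1) (RatFunc.C : K →+* RatFunc K) z, RsT_ht, rsdT_cst, ht_zero]
  exact zero_mem _

/-- injectivity -/
theorem hm_inj (m j : ℕ) :
    Function.Injective (hm m (j + 1) (RatFunc.C : K →+* RatFunc K)) := by
  obtain ⟨e, h1, h2, _⟩ := Helper42.LT.injMid (K := K) m j
  have key : ∀ c, hm m (j + 1) (RatFunc.C : K →+* RatFunc K) c = e (inM c) := by
    intro c
    obtain ⟨z, rfl⟩ := hc_surj c
    obtain ⟨h, h3⟩ := hm_ind m (j + 1) (RatFunc.C : K →+* RatFunc K) z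
    obtain ⟨h', h4⟩ := h2 z
    rw [h3]
    exact h4.symm
  intro a b hab
  rw [key, key] at hab
  exact (Prod.ext_iff.1 (h1 hab)).1

theorem hmt_inj (n : ℕ) :
    Function.Injective (hmt (n + 1) (RatFunc.C : K →+* RatFunc K)) := by
  obtain ⟨e, h1, h2, _⟩ := Helper42.LT.injTop (K := K) n
  have key : ∀ c, hmt (n + 1) (RatFunc.C : K →+* RatFunc K) c = e (inMT c) := by
    intro c
    obtain ⟨z, rfl⟩ := ht_surj c
    rw [hmt_ind (n + 1) (RatFunc.C : K →+* RatFunc K) z]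
    exact (h2 z).symm
  intro a b hab
  rw [key, key] at hab
  exact (Prod.ext_iff.1 (h1 hab)).1

end

/-! ### exactness, in terms of theories -/

section
variable {K : Type u} [Field K]

/-- The residue field of a place is the residue field of the closed point. -/
private lemma lo6_psi {k : Type u} [Field k] (p : SRG.Pl K k) :
    ∃ ψ : kap (⟨p.P, p.monic, p.irr⟩ : Pt K) →+* k,
      ∀ A : K[X], ψ (rP (⟨p.P, p.monic, p.irr⟩ : Pt K) A) = p.r A := by
  refine ⟨AdjoinRoot.lift (p.r.comp C) (p.r X) ?_, fun A => ?_⟩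
  · have h : (Polynomial.eval₂RingHom (p.r.comp C) (p.r X)) = p.r := by
      refine Polynomial.ringHom_ext (fun a => ?_) ?_
      · rw [Polynomial.coe_eval₂RingHom, Polynomial.eval₂_C]; rfl
      · rw [Polynomial.coe_eval₂RingHom, Polynomial.eval₂_X]
    have h2 := RingHom.congr_fun h p.P
    rw [Polynomial.coe_eval₂RingHom] at h2
    rw [h2]
    exact (p.ker p.P).2 (dvd_refl _)
  · have h : (Polynomial.eval₂RingHom (p.r.comp C) (p.r X)) = p.r := by
      refine Polynomial.ringHom_ext (fun a => ?_) ?_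
      · rw [Polynomial.coe_eval₂RingHom, Polynomial.eval₂_C]; rfl
      · rw [Polynomial.coe_eval₂RingHom, Polynomial.eval₂_X]
    have h2 := RingHom.congr_fun h A
    rw [Polynomial.coe_eval₂RingHom] at h2
    refine Eq.trans ?_ h2
    exact AdjoinRoot.lift_mk _ A

/-- It is enough to know the residues at the closed points. -/
theorem null_of_pt (H : Thy.{u}) (hH : Laws H) (j : ℕ) (z : H.Y (RatFunc K) (j + 1))
    (h : ∀ P : Pt K, H.re (vP P) j z ∈ H.N (kap P) j) :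
    ∀ (k : Type u) [Field k] (p : SRG.Pl K k) (V : AC (RatFunc K) k), IsPt p V →
      H.re V j z ∈ H.N k j := by
  intro k _ p V hV
  set P : Pt K := ⟨p.P, p.monic, p.irr⟩ with hP
  obtain ⟨ψ, hψ⟩ := lo6_psi p
  have hv := vP_pt P
  have hV' : IsPt p ((vP P).push ψ) := by
    refine ⟨hv.vP, ?_, fun A hA => hv.v A hA, fun A hA => ?_⟩
    · change ψ ((vP P).lc (algebraMap K[X] (RatFunc K) p.P)) = 1
      have h1 : (vP P).lc (algebraMap K[X] (RatFunc K) p.P) = 1 := hv.lP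
      rw [h1, map_one]
    · change ψ ((vP P).lc (algebraMap K[X] (RatFunc K) A)) = p.r A
      rw [hv.lc A hA]
      exact hψ A
  have h1 : H.re V j z = H.re ((vP P).push ψ) j z := by
    have h2 := hH.re_unif (RatFunc K) k ((vP P).push ψ) V 1
      (fun x hx => by rw [one_mul]; exact (pt_unique hV hV' x hx).1)
      (fun x hx _ => (pt_unique hV hV' x hx).2) j z
    rw [h2, one_smul]
  rw [h1, hH.re_push]
  exact hH.map_N _ _ ψ j _ (h P)

/-- exactness in the middle for a theory with comparison maps -/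
theorem exact_of (H : Thy.{u}) (hH : Laws H) (hE : Exact H) (m j : ℕ)
    (t : (L : Type u) → [Field L] → (i : ℕ) → H.Y L i →ₗ[ℚ] CC m i L)
    (t_surj : ∀ (L : Type u) [Field L] (i : ℕ) (y : CC m i L), ∃ z, t L i z = y)
    (t_Z : ∀ (L : Type u) [Field L] (i : ℕ) (z : H.Y L i), t L i z ∈ ZC L m i ↔ z ∈ H.Z L i)
    (t_B : ∀ (L : Type u) [Field L] (i : ℕ) (z : H.Y L i), t L i z ∈ BC L m i ↔ z ∈ H.N L i)
    (t_rs : ∀ (L L' : Type u) [Field L] [Field L'] (φ : L →+* L') (i : ℕ) (z : H.Y L i),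
      rs m i φ (t L i z) = t L' i (H.map φ i z))
    (t_re : ∀ (L k : Type u) [Field L] [Field k] (V : AC L k) (i : ℕ) (z : H.Y L (i + 1)),
      rsd V m i (t L (i + 1) z) = t k i (H.re V i z))
    (t_ZK : ∀ (c : H.Y K (j + 1)), H.map (RatFunc.C : K →+* RatFunc K) (j + 1) c ∈
      H.Z (RatFunc K) (j + 1) → c ∈ H.Z K (j + 1))
    (hNZ : ∀ z, z ∈ H.N (RatFunc K) (j + 1) → z ∈ H.Z (RatFunc K) (j + 1)) :
    Function.Exact (hm m (j + 1) (RatFunc.C : K →+* RatFunc K)) (Rs K m j) := by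
  intro c
  constructor
  · intro hc0
    obtain ⟨y, rfl⟩ := hc_surj c
    obtain ⟨z, hz⟩ := t_surj _ _ y.1
    have hzZ : z ∈ H.Z (RatFunc K) (j + 1) := (t_Z _ _ z).1 (by rw [hz]; exact y.2)
    have h1 : ∀ P : Pt K, H.re (vP P) j z ∈ H.N (kap P) j := by
      intro P
      have h2 : Rs K m j (hc y) P = 0 := by rw [hc0]; rfl
      rw [Rs_hc, hc_zero] at h2
      change rsd (vP P) m j y.1 ∈ _ at h2
      rw [← hz, t_re, t_B] at h2
      exact h2
    obtain ⟨d, hd⟩ := hE K j z hzZ (null_of_pt H hH j z h1)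
    have hd2 : H.map (RatFunc.C : K →+* RatFunc K) (j + 1) d ∈ H.Z (RatFunc K) (j + 1) := by
      have h3 := (H.Z (RatFunc K) (j + 1)).sub_mem hzZ (hNZ _ hd)
      rwa [sub_sub_cancel] at h3
    have hdZ := t_ZK d hd2
    refine ⟨hc ⟨t K (j + 1) d, (t_Z K (j + 1) d).2 hdZ⟩, ?_⟩
    obtain ⟨h4, h5⟩ := hm_ind m (j + 1) (RatFunc.C : K →+* RatFunc K)
      ⟨t K (j + 1) d, (t_Z K (j + 1) d).2 hdZ⟩
    rw [h5, hc_eq]
    change rs m (j + 1) (RatFunc.C : K →+* RatFunc K) (t K (j + 1) d) - y.1 ∈ _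
    rw [t_rs, ← hz, ← map_sub, t_B, ← neg_sub]
    exact neg_mem hd
  · rintro ⟨d, rfl⟩
    exact Rs_hm m j d

/-- surjectivity for a theory with comparison maps -/
theorem surj_of (H : Thy.{u}) (hR : Resid H) (hF : FinR H) (m j : ℕ)
    (t : (L : Type u) → [Field L] → (i : ℕ) → H.Y L i →ₗ[ℚ] CC m i L)
    (t_surj : ∀ (L : Type u) [Field L] (i : ℕ) (y : CC m i L), ∃ z, t L i z = y)
    (t_Z : ∀ (L : Type u) [Field L] (i : ℕ) (z : H.Y L i), t L i z ∈ ZC L m i ↔ z ∈ H.Z L i)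
    (t_B : ∀ (L : Type u) [Field L] (i : ℕ) (z : H.Y L i), t L i z ∈ BC L m i ↔ z ∈ H.N L i)
    (t_re : ∀ (L k : Type u) [Field L] [Field k] (V : AC L k) (i : ℕ) (z : H.Y L (i + 1)),
      rsd V m i (t L (i + 1) z) = t k i (H.re V i z)) :
    Function.Surjective (Rs K m j) := by
  intro w
  choose y hy using fun P : Pt K => hc_surj (w P)
  choose z hz using fun P : Pt K => t_surj (kap P) j (y P).1
  have hzZ : ∀ P, z P ∈ H.Z (kap P) j := fun P => (t_Z _ _ _).1 (by rw [hz]; exact (y P).2)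
  have hs : ∃ s : Finset (Pt K), ∀ P, P ∉ s → w P = 0 := by
    classical
    refine ⟨DFinsupp.support w, fun P hP => ?_⟩
    exact DFinsupp.notMem_support_iff.1 hP
  obtain ⟨s, hs⟩ := hs
  obtain ⟨x, hx, hx'⟩ := multi H (by
    intro L k _ _ V i a ha
    rw [← t_Z] at ha ⊢
    rw [← t_re]
    exact rsd_Z V m i ha) hR hF K j z hzZ s (by
    intro P hP
    rw [← t_B, hz, ← hc_zero, hy]
    exact hs P hP)
  refine ⟨hc ⟨t (RatFunc K) (j + 1) x, (t_Z _ _ _).2 hx⟩, ?_⟩
  refine DirectSum.ext_component ℚ fun P => ?_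
  change Rs K m j _ P = w P
  rw [Rs_hc, ← hy P, hc_eq]
  change rsd (vP P) m j (t (RatFunc K) (j + 1) x) - (y P).1 ∈ _
  rw [t_re, ← hz P, ← map_sub, t_B]
  exact hx' P

end

end TLO
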