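import Pool.Agent.TLO.Lo6
import Pool.Agent.QPL.Th1
import Pool.Agent.QPL.Th0

set_option autoImplicit false

/-!
# TLO-Lo7: the localisation sequence for all fields
-/

noncomputable section

open Polynomial TensorProduct
open scoped Classical

namespace TLO

open Helper14.Gon Helper14.W4 Helper14.Loc QPL TGF

universe u

section
variable {K : Type u} [Field K]

/-- coboundaries are cocycles -/
lemma BC_le_ZC {F : Type u} [Field F] (k j : ℕ) {z : CC k j F} (h : z ∈ BC F k j) :
    z ∈ ZC F k j := by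
  rw [mem_BC] at h
  rw [mem_ZC]
  cases j with
  | zero =>
    have h' : eC F k 0 z = 0 := h
    rw [h']
    exact zero_mem _
  | succ j =>
    obtain ⟨y, hy⟩ := h
    rw [← hy]
    cases k with
    | zero =>
      change dT (j + 1) (dC 0 j y) = 0
      exact LinearMap.congr_fun (dT_dC j) y
    | succ k =>
      change dC k (j + 1) (dC (k + 1) j y) = 0
      exact LinearMap.congr_fun (dC_dC k j) y

/-- a chain over `K` which is a cocycle over `K(t)` is a cocycle -/
lemma ZC_of_rs (k j : ℕ) {z : CC k j K}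
    (h : rs k j (RatFunc.C : K →+* RatFunc K) z ∈ ZC (RatFunc K) k j) : z ∈ ZC K k j := by
  rw [mem_ZC] at h ⊢
  rw [rs_eq] at h
  cases k with
  | zero =>
    have h1 : dT j (rC 0 j (eC K 0 j z)) = 0 := h
    rw [rT_dT] at h1
    change dT j (eC K 0 j z) = 0
    rw [← sT_rT (c := (0 : K)) (j + 2) (dT j (eC K 0 j z)), h1, map_zero]
  | succ k =>
    have h1 : dC k j (rC (k + 1) j (eC K (k + 1) j z)) = 0 := h
    rw [rC_dC] at h1
    change dC k j (eC K (k + 1) j z) = 0
    rw [← sC_rC (c := (0 : K)) k (j + 1) (dC k j (eC K (k + 1) j z)), h1, map_zero]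

end

section
variable (K : Type u) [Field K]

private lemma lo7_top {F : Type u} [Field F] {n : ℕ} (z : Tx n F) : z ∈ th0.Z F n :=
  (Submodule.mem_top : z ∈ (⊤ : Submodule ℚ (Tx n F)))

/-- the localisation sequence in codegree one -/
theorem seq0 (j : ℕ) : LocSeq K 0 j := by
  refine ⟨hm_inj 0 j, ?_, ?_⟩
  · refine exact_of th1 (laws1 res1) exact1 0 j (fun _ _ i => t1 i) (fun _ _ i y => t1_surj i y)
      (fun _ _ i z => t1_Z i z) (fun _ _ i z => t1_B i z) (fun _ _ _ _ φ i z => t1_rs i φ z)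
      (fun _ _ _ _ V i z => rsd_t1 V i z) ?_ ?_
    · intro c hc
      refine (t1_Z (j + 1) c).1 (ZC_of_rs 0 (j + 1) ?_)
      have h := (t1_Z (j + 1) (th1.map (RatFunc.C : K →+* RatFunc K) (j + 1) c)).2 hc
      have h2 := t1_rs (j + 1) (RatFunc.C : K →+* RatFunc K) c
      exact h2 ▸ h
    · intro z hz
      exact (t1_Z (j + 1) z).1 (BC_le_ZC 0 (j + 1) ((t1_B (j + 1) z).2 hz))
  · exact surj_of th1 res1 fin1 0 j (fun _ _ i => t1 i) (fun _ _ i y => t1_surj i y)
      (fun _ _ i z => t1_Z i z) (fun _ _ i z => t1_B i z) (fun _ _ _ _ V i z => rsd_t1 V i z)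

/-- residues are surjective in codegree two -/
theorem surj1 (j : ℕ) : Function.Surjective (Rs K 1 j) :=
  surj_of th2 res2 fin2 1 j (fun _ _ i => t2 i) (fun _ _ i y => t2_surj i y)
    (fun _ _ i z => t2_Z i z) (fun _ _ i z => t2_B i z) (fun _ _ _ _ V i z => rsd_t2 V i z)

/-- the localisation sequence in the top degree -/
theorem seqT (n : ℕ) : LocSeqT K n := by
  refine ⟨hmt_inj n, ?_, ?_⟩
  · intro c
    constructor
    · intro hc0
      obtain ⟨y, rfl⟩ := ht_surj c
      obtain ⟨z, hz⟩ := t0_surj (n + 1) y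
      have h1 : ∀ P : Pt K, th0.re (vP P) n z ∈ th0.N (kap P) n := by
        intro P
        have h2 : RsT K n (ht y) P = 0 := by rw [hc0]; rfl
        rw [RsT_ht, ht_zero, ← hz, rsdT_t0] at h2
        exact (t0_B n _).1 h2
      obtain ⟨d, hd⟩ := exact0 K n z (lo7_top z) (null_of_pt th0 (laws0 res0) n z h1)
      refine ⟨ht (t0 (n + 1) d), ?_⟩
      rw [hmt_ind (n + 1) (RatFunc.C : K →+* RatFunc K), ht_eq, t0_rt, ← hz, ← map_sub, ← neg_sub,
        map_neg]
      exact neg_mem ((t0_B (n + 1) _).2 hd)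
    · rintro ⟨d, rfl⟩
      exact RsT_hmt n d
  · intro w
    choose y hy using fun P : Pt K => ht_surj (w P)
    choose z hz using fun P : Pt K => t0_surj n (y P)
    have hs : ∃ s : Finset (Pt K), ∀ P, P ∉ s → w P = 0 := by
      classical
      refine ⟨DFinsupp.support w, fun P hP => ?_⟩
      exact DFinsupp.notMem_support_iff.1 hP
    obtain ⟨s, hs⟩ := hs
    obtain ⟨x, hx, hx'⟩ := multi th0 (fun _ _ _ _ _ _ _ _ => lo7_top _) res0 fin0 K n z
      (fun _ => lo7_top _) s (by
        intro P hP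
        refine (t0_B n _).1 ?_
        rw [hz, ← ht_zero, hy]
        exact hs P hP)
    refine ⟨ht (t0 (n + 1) x), ?_⟩
    refine DirectSum.ext_component ℚ fun P => ?_
    change RsT K n _ P = w P
    rw [RsT_ht, ← hy P, ht_eq, rsdT_t0, ← hz P, ← map_sub]
    exact (t0_B n _).2 (hx' P)

end

end TLO
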